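import Pool.Agent.T9h35.WS.Product
import Pool.Agent.T9h36.WN2.Real

set_option autoImplicit false

/-!
# The bound with the factor `(R / j ^ 2) ^ (j / 2)`, and one chain for all `j`
-/

namespace Pool.Agent.T9h35.WS

open Finset Pool.Agent.T9h34 Pool.Agent.T9h16 Pool.Agent.T9h35.Sharp Pool.Agent.T9h35.NearBF
open Pool.Agent.T9h36.WN
open scoped Classical

/-- For small `j` the factor `j ^ j` is negligible. -/
theorem self_pow_le {n j : ℕ} {ε : ℝ} (hε : 0 < ε) (hj : 1 ≤ j) (hjn : j ≤ n)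
    (h : (j : ℝ) ≤ (n : ℝ) ^ (ε / (1 + ε))) : (j : ℝ) ^ j ≤ (n.choose j : ℝ) ^ ε := by
  have hj0 : (0 : ℝ) < j := by exact_mod_cast hj
  have hn0 : (0 : ℝ) < n := by
    have : 0 < n := by omega
    exact_mod_cast this
  have h1 : ((n : ℝ) / j) ^ j ≤ (n.choose j : ℝ) := by
    rw [div_pow, div_le_iff₀ (pow_pos hj0 j), mul_comm]
    exact_mod_cast Pool.Agent.T9h36.WN2.pow_le_choose_mul j n hjn
  have h2 : (j : ℝ) ≤ ((n : ℝ) / j) ^ ε := by
    rw [Real.div_rpow hn0.le hj0.le, le_div_iff₀ (Real.rpow_pos_of_pos hj0 _)]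
    have h3 : (j : ℝ) ^ (1 + ε) ≤ (n : ℝ) ^ ε := by
      calc (j : ℝ) ^ (1 + ε) ≤ ((n : ℝ) ^ (ε / (1 + ε))) ^ (1 + ε) :=
            Real.rpow_le_rpow hj0.le h (by linarith)
        _ = (n : ℝ) ^ ε := by
            rw [← Real.rpow_mul hn0.le]
            congr 1
            have : (1 + ε) ≠ 0 := by linarith
            field_simp
    rwa [Real.rpow_add hj0, Real.rpow_one] at h3
  calc (j : ℝ) ^ j ≤ (((n : ℝ) / j) ^ ε) ^ j := pow_le_pow_left₀ hj0.le h2 j
    _ = (((n : ℝ) / j) ^ j) ^ ε := by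
        rw [← Real.rpow_natCast, ← Real.rpow_natCast, ← Real.rpow_mul (by positivity),
          ← Real.rpow_mul (by positivity), mul_comm]
    _ ≤ (n.choose j : ℝ) ^ ε := Real.rpow_le_rpow (by positivity) h1 hε.le

/-- One circuit, one graph. -/
theorem one_graph2 (ε : ℝ) (hε : 0 < ε) : ∃ K : ℕ, 0 < K ∧
    ∀ (n k j J : ℕ) (C : Circuit (Pair n)), 3 ≤ j → j ≤ k → k ≤ n →
    (J = 1 ∨ J = j ^ 2 ∧ (j : ℝ) ≤ ((n - k + j : ℕ) : ℝ) ^ (1 - ε)) →
    (K * (Nat.log 2 (C.size + C.numReads + 1) + 1)) ^ K ≤ (n - k + j) / j →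
    (∀ G : SimpleGraph (Fin n), C.eval (edgeValues G) = true → HasClique k G) →
    ∀ R : ℕ, 1 ≤ R → ¬ HasChain C k R →
      ((univ.filter fun S : Finset (Fin n) => S.card = k ∧ Finds C S).card : ℝ) ≤
        ((C.size + C.numReads + 1 : ℕ) : ℝ) * (max 1 ((R : ℝ) / J)) ^ ((j : ℝ) / 2) /
          ((n - k + j).choose j : ℝ) ^ (1 - ε) * (n.choose k : ℝ) := by
  obtain ⟨K1, hK1, h1⟩ := one_graph (ε / 2) (by positivity)
  obtain ⟨K2, hK2, h2⟩ := Pool.Agent.T9h36.WN2.large_circuit ((ε / 2) / (1 + ε / 2)) ε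
    (by positivity) hε
  refine ⟨K1 + K2, by omega, fun n k j J C hj3 hjk hkn hJ hew hs R hR hno => ?_⟩
  obtain ⟨n', hn'⟩ : ∃ n', n' = n - k + j := ⟨_, rfl⟩
  rw [← hn'] at hJ hew ⊢
  obtain ⟨L, hL⟩ : ∃ L, L = Nat.log 2 (C.size + C.numReads + 1) + 1 := ⟨_, rfl⟩
  rw [← hL] at hew
  have hjn' : j ≤ n' := by omega
  have hL1 : 1 ≤ L := by omega
  have hc1 : (1 : ℝ) ≤ (n'.choose j : ℝ) := by
    have : 1 ≤ n'.choose j := Nat.choose_pos hjn'
    exact_mod_cast this
  have hc0 : (0 : ℝ) < (n'.choose j : ℝ) := by linarith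
  have hS : (1 : ℝ) ≤ ((C.size + C.numReads + 1 : ℕ) : ℝ) := by
    have : 1 ≤ C.size + C.numReads + 1 := by omega
    exact_mod_cast this
  have hR1 : (1 : ℝ) ≤ R := by exact_mod_cast hR
  have hj0 : (0 : ℝ) < j := by
    have : 0 < j := by omega
    exact_mod_cast this
  have hew1 : (K1 * L) ^ K1 ≤ n' / j := by
    refine le_trans ?_ hew
    calc (K1 * L) ^ K1 ≤ ((K1 + K2) * L) ^ K1 :=
          Nat.pow_le_pow_left (Nat.mul_le_mul_right _ (by omega)) _
      _ ≤ ((K1 + K2) * L) ^ (K1 + K2) :=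
          Nat.pow_le_pow_right (Nat.mul_pos (by omega) (by omega)) (by omega)
  have hsmall := h1 n k j C hj3 hjk hkn (by rw [← hn', ← hL]; exact hew1) hs R hR hno
  rw [← hn'] at hsmall
  -- the bound with `J = 1`
  have hcomp : ∀ X : ℝ, 0 ≤ X → (R : ℝ) ^ ((j : ℝ) / 2) ≤ X * (n'.choose j : ℝ) ^ (ε / 2) →
      ((univ.filter fun S : Finset (Fin n) => S.card = k ∧ Finds C S).card : ℝ) ≤
        ((C.size + C.numReads + 1 : ℕ) : ℝ) * X / (n'.choose j : ℝ) ^ (1 - ε) *
          (n.choose k : ℝ) := by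
    intro X hX0 hX
    refine hsmall.trans (mul_le_mul_of_nonneg_right ?_ (Nat.cast_nonneg _))
    rw [mul_div_assoc, mul_div_assoc]
    apply mul_le_mul_of_nonneg_left _ (by positivity)
    rw [div_le_div_iff₀ (by positivity) (by positivity)]
    calc (R : ℝ) ^ ((j : ℝ) / 2) * (n'.choose j : ℝ) ^ (1 - ε)
        ≤ (X * (n'.choose j : ℝ) ^ (ε / 2)) * (n'.choose j : ℝ) ^ (1 - ε) :=
          mul_le_mul_of_nonneg_right hX (by positivity)
      _ = X * (n'.choose j : ℝ) ^ (1 - ε / 2) := by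
          rw [mul_assoc, ← Real.rpow_add hc0]
          congr 2
          ring
  rcases hJ with rfl | ⟨rfl, hjε⟩
  · apply hcomp _ (by positivity)
    rw [Nat.cast_one, div_one, max_eq_right hR1]
    have h3 : (1 : ℝ) ≤ (n'.choose j : ℝ) ^ (ε / 2) := Real.one_le_rpow hc1 (by positivity)
    nlinarith [Real.rpow_nonneg (show (0 : ℝ) ≤ R by linarith) ((j : ℝ) / 2)]
  · by_cases hjs : (j : ℝ) ≤ (n' : ℝ) ^ ((ε / 2) / (1 + ε / 2))
    · apply hcomp _ (by positivity)
      have h3 := self_pow_le (ε := ε / 2) (by positivity) (by omega) hjn' hjs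
      have h4 : (R : ℝ) ^ ((j : ℝ) / 2) =
          ((j : ℝ) ^ 2) ^ ((j : ℝ) / 2) * ((R : ℝ) / (j : ℝ) ^ 2) ^ ((j : ℝ) / 2) := by
        rw [← Real.mul_rpow (by positivity) (by positivity)]
        congr 1
        field_simp
      have h5 : ((j : ℝ) ^ 2) ^ ((j : ℝ) / 2) = (j : ℝ) ^ j := by
        rw [← Real.rpow_natCast, ← Real.rpow_mul hj0.le, ← Real.rpow_natCast]
        congr 1
        push_cast
        ring
      rw [h4, h5, mul_comm]
      push_cast
      apply mul_le_mul _ h3 (by positivity) (by positivity)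
      exact Real.rpow_le_rpow (by positivity) (le_max_right _ _) (by positivity)
    · push Not at hjs
      have h3 := lift_real hjk hkn C hs R
        ((max 1 ((R : ℝ) / (j : ℝ) ^ 2)) ^ ((j : ℝ) / 2) * (n'.choose j : ℝ) ^ ε)
        (by positivity) hno (by
          intro C' e1 e2 hs' hno'
          have h4 := h2 (n - k + j) j R C' (by omega) (by rw [← hn']; exact hjs.le)
            (by rw [← hn']; exact hjε) (by
              refine le_trans ?_ hn'.le
              have h5 : Nat.log 2 (C'.size + C'.numReads) + 1 ≤ L := by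
                rw [hL, e1, e2]
                exact Nat.add_le_add_right (Nat.log_mono_right (by omega)) 1
              calc (K2 * (Nat.log 2 (C'.size + C'.numReads) + 1)) ^ K2 ≤ (K2 * L) ^ K2 :=
                    Nat.pow_le_pow_left (Nat.mul_le_mul_left _ h5) _
                _ ≤ ((K1 + K2) * L) ^ K2 :=
                    Nat.pow_le_pow_left (Nat.mul_le_mul_right _ (by omega)) _
                _ ≤ ((K1 + K2) * L) ^ (K1 + K2) :=
                    Nat.pow_le_pow_right (Nat.mul_pos (by omega) (by omega)) (by omega)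
                _ ≤ n' / j := hew
                _ ≤ n' := Nat.div_le_self _ _) hs' hR hno'
          rw [hn']
          exact h4)
      rw [← hn'] at h3
      refine h3.trans (mul_le_mul_of_nonneg_right ?_ (Nat.cast_nonneg _))
      obtain ⟨X, hX⟩ : ∃ X, X = (max 1 ((R : ℝ) / (j : ℝ) ^ 2)) ^ ((j : ℝ) / 2) := ⟨_, rfl⟩
      have hX0 : 0 ≤ X := by rw [hX]; positivity
      push_cast
      rw [← hX]
      have h6 : X * (n'.choose j : ℝ) ^ ε / (n'.choose j : ℝ) =
          X / (n'.choose j : ℝ) ^ (1 - ε) := by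
        rw [div_eq_div_iff (by positivity) (by positivity), mul_assoc, ← Real.rpow_add hc0]
        congr 1
        have : ε + (1 - ε) = 1 := by ring
        rw [this, Real.rpow_one]
      rw [h6]
      apply div_le_div_of_nonneg_right _ (by positivity)
      have h7 : ((C.size + C.numReads + 1 : ℕ) : ℝ) = (C.size : ℝ) + C.numReads + 1 := by
        push_cast
        ring
      rw [h7] at hS
      nlinarith

/-- From one graph and one circuit to several graphs and circuits, for all bounds. -/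
theorem product_all {U : Type} [Fintype U] {M n k : ℕ} (hM : 1 ≤ M) (hk2 : 2 ≤ k)
    (D : U → Circuit (Fin M × Pair n))
    (hcl : ∀ u (G : Fin M → SimpleGraph (Fin n)), (D u).eval (allValues G) = true →
      ∀ a, HasClique k (G a)) :
    ∃ (m : U → ℕ) (G : U → ℕ → Fin M → SimpleGraph (Fin n)),
      (∀ u i, G u i ≤ G u (i + 1)) ∧ (∀ u i, ∃ a, ¬ HasClique k (G u i a)) ∧
      (∀ u, ∀ i < m u, (D u).reads (allValues (G u i)) ≠
        (D u).reads (allValues (G u (i + 1)))) ∧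
      (∀ u, m u + 1 ≤ ((D u).gates.map fun g => g.args.length + 1).prod) ∧
      ∀ β : U → ℕ → ℝ,
      (∀ u R (C : Circuit (Pair n)), C.size = (D u).size → C.numReads = (D u).numReads →
        (∀ G : SimpleGraph (Fin n), C.eval (edgeValues G) = true → HasClique k G) →
        1 ≤ R → ¬ HasChain C k R →
        ((univ.filter fun S : Finset (Fin n) => S.card = k ∧ Finds C S).card : ℝ) ≤ β u R) →
      ({S : Fin M → Finset (Fin n) | (∀ a, (S a).card = k) ∧ ∃ u, FindsAll (D u) S}.ncard : ℝ) ≤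
        ∑ u, β u (m u + 1) ^ M := by
  have hmax := fun u => exists_max_all (D u) hk2 hM
  choose m hm1 hm2 hm3 using hmax
  choose G hG1 hG2 hG3 using hm1
  refine ⟨m, G, hG1, hG2, hG3, hm3, fun β hβ => ?_⟩
  obtain ⟨F, hF⟩ : ∃ F : U → Fin M → Finset (Finset (Fin n)), ∀ u a, F u a =
      univ.filter fun S : Finset (Fin n) => S.card = k ∧ Finds ((D u).subst (proj a)) S :=
    ⟨_, fun _ _ => rfl⟩
  have h1 : ∀ u a, ((F u a).card : ℝ) ≤ β u (m u + 1) := by
    intro u a
    rw [hF]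
    apply hβ u (m u + 1) _ (Circuit.size_subst _ _) (Circuit.numReads_subst _ _) _ (by omega)
      (fun h3 => hm2 u (chains_of_chain _ a h3))
    intro G' hG'
    rw [Circuit.eval_subst, pull_proj] at hG'
    have h3 := hcl u _ hG' a
    unfold put at h3
    rw [Function.update_self] at h3
    exact h3
  have h2 : {S : Fin M → Finset (Fin n) | (∀ a, (S a).card = k) ∧ ∃ u, FindsAll (D u) S} ⊆
      (((univ : Finset U).biUnion fun u => Fintype.piFinset (F u) :
        Finset (Fin M → Finset (Fin n))) : Set (Fin M → Finset (Fin n))) := by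
    rintro S ⟨hS, u, hu⟩
    rw [mem_coe, mem_biUnion]
    refine ⟨u, mem_univ _, ?_⟩
    rw [Fintype.mem_piFinset]
    intro a
    rw [hF, mem_filter]
    refine ⟨mem_univ _, hS a, fun G' hG' => ?_⟩
    rw [Circuit.eval_subst, pull_proj]
    apply hu
    intro b
    unfold put
    by_cases hb : b = a
    · subst hb
      rw [Function.update_self]
      exact hG'
    · rw [Function.update_of_ne hb]
      intro x _ y _ hxy
      exact hxy
  have h3 := Set.ncard_le_ncard h2 (Finset.finite_toSet _)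
  rw [Set.ncard_coe_finset] at h3
  calc (({S : Fin M → Finset (Fin n) | (∀ a, (S a).card = k) ∧
        ∃ u, FindsAll (D u) S}.ncard : ℕ) : ℝ)
      ≤ ((∑ u : U, (Fintype.piFinset (F u)).card : ℕ) : ℝ) := by
        exact_mod_cast h3.trans card_biUnion_le
    _ = ∑ u : U, ∏ a : Fin M, ((F u a).card : ℝ) := by
        push_cast
        apply sum_congr rfl
        intro u _
        rw [Fintype.card_piFinset]
        push_cast
        rfl
    _ ≤ ∑ u : U, ∏ _a : Fin M, β u (m u + 1) :=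
        sum_le_sum fun u _ => prod_le_prod (fun a _ => Nat.cast_nonneg _) fun a _ => h1 u a
    _ = ∑ u, β u (m u + 1) ^ M := by
        apply sum_congr rfl
        intro u _
        rw [prod_const, card_univ, Fintype.card_fin]

/-- The theorem. -/
theorem main2 (ε : ℝ) (hε : 0 < ε) : ∃ K : ℕ, 0 < K ∧
    ∀ (U : Type) [Fintype U] (M n k : ℕ) (D : U → Circuit (Fin M × Pair n)), 1 ≤ M → 2 ≤ k →
    (∀ u (G : Fin M → SimpleGraph (Fin n)), (D u).eval (allValues G) = true →
      ∀ a, HasClique k (G a)) →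
    ∃ (m : U → ℕ) (G : U → ℕ → Fin M → SimpleGraph (Fin n)),
      (∀ u i, G u i ≤ G u (i + 1)) ∧ (∀ u i, ∃ a, ¬ HasClique k (G u i a)) ∧
      (∀ u, ∀ i < m u, (D u).reads (allValues (G u i)) ≠
        (D u).reads (allValues (G u (i + 1)))) ∧
      (∀ u, m u + 1 ≤ ((D u).gates.map fun g => g.args.length + 1).prod) ∧
      ∀ j J : ℕ, 3 ≤ j → j ≤ k → k ≤ n →
      (J = 1 ∨ J = j ^ 2 ∧ (j : ℝ) ≤ ((n - k + j : ℕ) : ℝ) ^ (1 - ε)) →
      (∀ u, (K * (Nat.log 2 ((D u).size + (D u).numReads + 1) + 1)) ^ K ≤ (n - k + j) / j) →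
      ({S : Fin M → Finset (Fin n) | (∀ a, (S a).card = k) ∧ ∃ u, FindsAll (D u) S}.ncard : ℝ) ≤
        (∑ u, (((D u).size + (D u).numReads + 1 : ℕ) *
          (max 1 (((m u + 1 : ℕ) : ℝ) / J)) ^ ((j : ℝ) / 2) /
            ((n - k + j).choose j : ℝ) ^ (1 - ε)) ^ M) * (n.choose k : ℝ) ^ M := by
  obtain ⟨K, hK0, hK⟩ := one_graph2 ε hε
  refine ⟨K, by omega, fun U _ M n k D hM hk2 hcl => ?_⟩
  obtain ⟨m, G, h1, h2, h3, h4, h5⟩ := product_all hM hk2 D hcl
  refine ⟨m, G, h1, h2, h3, h4, fun j J hj3 hjk hkn hJ hew => ?_⟩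
  have h6 := h5 (fun u R => ((D u).size + (D u).numReads + 1 : ℕ) *
      (max 1 ((R : ℝ) / J)) ^ ((j : ℝ) / 2) /
      ((n - k + j).choose j : ℝ) ^ (1 - ε) * (n.choose k : ℝ)) (by
      intro u R C e1 e2 hs hR hno
      have hsz : (D u).size + (D u).numReads + 1 = C.size + C.numReads + 1 := by rw [e1, e2]
      have hea := hew u
      simp only [hsz] at hea ⊢
      exact hK n k j J C hj3 hjk hkn hJ hea hs R hR hno)
  refine h6.trans (le_of_eq ?_)
  rw [sum_mul]
  apply sum_congr rfl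
  intro u _
  rw [mul_pow]

end Pool.Agent.T9h35.WS
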