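import Pool.Agent.T9h34.ReadsDef
import Pool.Agent.T9h34.EdgeInputs

set_option autoImplicit false

/-!
# Inputs that are tuples of graphs, and the tuples of sets found by a circuit
-/

namespace Pool.Agent.T9h35.WS

open Pool.Agent.T9h34

open Classical in
/-- The input that describes the graphs `G 0, …, G (M - 1)`: for every `a` and all vertices `u < v`
whether `u` and `v` are adjacent in `G a`. -/
noncomputable def adjacency {M n : ℕ} (G : Fin M → SimpleGraph (Fin n)) : Fin M × Pair n → Bool :=
  fun p => decide ((G p.1).Adj p.2.1.1 p.2.1.2)

/-- The circuit finds the tuple `S` of sets: it accepts all tuples of graphs in which these sets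
are cliques. -/
def FindsTuple {M n : ℕ} (C : Circuit (Fin M × Pair n)) (S : Fin M → Finset (Fin n)) : Prop :=
  ∀ G : Fin M → SimpleGraph (Fin n), (∀ a, (G a).IsClique (S a : Set (Fin n))) →
    C.eval (adjacency G) = true

end Pool.Agent.T9h35.WS
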