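import Pool.Agent.T9h35.WS.Curve
import Pool.Agent.T9h35.WS.Defs

set_option autoImplicit false

/-!
# The final form
-/

namespace Pool.Agent.T9h35.WS

open Finset Pool.Agent.T9h34 Pool.Agent.T9h16 Pool.Agent.T9h35.Sharp Pool.Agent.T9h35.NearBF
open Pool.Agent.T9h36.WN

theorem adjacency_eq {M n : ℕ} (G : Fin M → SimpleGraph (Fin n)) :
    adjacency G = allValues G := by
  funext p
  unfold adjacency allValues edgeValues
  congr

theorem hasClique_iff {n k : ℕ} (G : SimpleGraph (Fin n)) : HasClique k G ↔ ¬ G.CliqueFree k := by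
  unfold HasClique SimpleGraph.CliqueFree
  push Not
  constructor
  · rintro ⟨c, hc, hk⟩
    obtain ⟨c', hc', hcard⟩ := Finset.exists_subset_card_eq hk
    exact ⟨c', (SimpleGraph.isNClique_iff _).2 ⟨hc.subset (by exact_mod_cast hc'), hcard⟩⟩
  · rintro ⟨c, hc⟩
    rw [SimpleGraph.isNClique_iff] at hc
    exact ⟨c, hc.1, hc.2.ge⟩

theorem final (ε : ℝ) (hε : 0 < ε) : ∃ K : ℕ, 0 < K ∧
    ∀ (U : Type) [Fintype U] (M n k : ℕ) (D : U → Circuit (Fin M × Pair n)), 1 ≤ M → 2 ≤ k →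
    (∀ u (G : Fin M → SimpleGraph (Fin n)), (D u).eval (adjacency G) = true →
      ∀ a, ¬ (G a).CliqueFree k) →
    ∃ (m : U → ℕ) (G : U → ℕ → Fin M → SimpleGraph (Fin n)),
      (∀ u i, G u i ≤ G u (i + 1)) ∧ (∀ u i, ∃ a, (G u i a).CliqueFree k) ∧
      (∀ u, ∀ i < m u, (D u).reads (adjacency (G u i)) ≠
        (D u).reads (adjacency (G u (i + 1)))) ∧
      (∀ u, m u + 1 ≤ ((D u).gates.map fun g => g.args.length + 1).prod) ∧
      ∀ j J : ℕ, 3 ≤ j → j ≤ k → k ≤ n →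
      (J = 1 ∨ J = j ^ 2 ∧ (j : ℝ) ≤ ((n - k + j : ℕ) : ℝ) ^ (1 - ε)) →
      (∀ u, (K * (Nat.log 2 ((D u).size + (D u).numReads + 1) + 1)) ^ K ≤ (n - k + j) / j) →
      ({S : Fin M → Finset (Fin n) | (∀ a, (S a).card = k) ∧
          ∃ u, FindsTuple (D u) S}.ncard : ℝ) ≤
        (∑ u, (((D u).size + (D u).numReads + 1 : ℕ) *
          (max 1 (((m u + 1 : ℕ) : ℝ) / J)) ^ ((j : ℝ) / 2) /
            ((n - k + j).choose j : ℝ) ^ (1 - ε)) ^ M) * (n.choose k : ℝ) ^ M := by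
  have hf : ∀ {M n : ℕ} (C : Circuit (Fin M × Pair n)) (S : Fin M → Finset (Fin n)),
      FindsTuple C S ↔ FindsAll C S := by
    intro M n C S
    unfold FindsTuple FindsAll
    simp only [adjacency_eq]
  obtain ⟨K, hK0, hK⟩ := main2 ε hε
  refine ⟨K, hK0, ?_⟩
  intro U _ M n k D hM hk hcl
  obtain ⟨m, G, h1, h2, h3, h4, h5⟩ := hK U M n k D hM hk (by
    intro u G hG a
    rw [hasClique_iff]
    rw [← adjacency_eq] at hG
    exact hcl u G hG a)
  refine ⟨m, G, h1, ?_, ?_, h4, ?_⟩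
  · intro u i
    obtain ⟨a, ha⟩ := h2 u i
    rw [hasClique_iff, not_not] at ha
    exact ⟨a, ha⟩
  · simp only [adjacency_eq]
    exact h3
  · simp only [hf]
    exact h5

end Pool.Agent.T9h35.WS
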