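import Pool.Agent.T9h36.WN.Embed
import Pool.Agent.T9h34.ParamsAlt

set_option autoImplicit false

/-!
# Universal vertices
-/

namespace Pool.Agent.T9h35.WS

open Finset Pool.Agent.T9h34 Pool.Agent.T9h16 Pool.Agent.T9h35.Sharp Pool.Agent.T9h35.NearBF
open Pool.Agent.T9h36.WN
open scoped Classical

variable {n n' : ℕ}

/-- The graph on `n` vertices in which the vertices outside of the range of `ι` are universal. -/
def univ_ext (ι : Fin n' ↪o Fin n) (G : SimpleGraph (Fin n')) : SimpleGraph (Fin n) where
  Adj a b := a ≠ b ∧ ∀ x y, ι x = a → ι y = b → G.Adj x y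
  symm := ⟨fun _ _ h => ⟨h.1.symm, fun x y hx hy => (h.2 y x hy hx).symm⟩⟩
  loopless := ⟨fun _ h => h.1 rfl⟩

/-- The substitution. -/
noncomputable def univ_sub (ι : Fin n' ↪o Fin n) (p : Pair n) : Pair n' ⊕ Bool :=
  if h : ∃ q : Pair n', ι q.1.1 = p.1.1 ∧ ι q.1.2 = p.1.2 then Sum.inl h.choose else Sum.inr true

theorem pull_univ (ι : Fin n' ↪o Fin n) (G : SimpleGraph (Fin n')) :
    pull (univ_sub ι) (edgeValues G) = edgeValues (univ_ext ι G) := by
  funext p
  unfold pull univ_sub
  by_cases h : ∃ q : Pair n', ι q.1.1 = p.1.1 ∧ ι q.1.2 = p.1.2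
  · rw [dif_pos h]
    obtain ⟨h1, h2⟩ := h.choose_spec
    generalize h.choose = q at h1 h2
    rw [Sum.elim_inl]
    unfold edgeValues
    rw [decide_eq_decide]
    show G.Adj q.1.1 q.1.2 ↔ (p.1.1 ≠ p.1.2 ∧ ∀ x y, ι x = p.1.1 → ι y = p.1.2 → G.Adj x y)
    constructor
    · intro h3
      refine ⟨ne_of_lt p.2, fun x y hx hy => ?_⟩
      have e1 : x = q.1.1 := ι.injective (hx.trans h1.symm)
      have e2 : y = q.1.2 := ι.injective (hy.trans h2.symm)
      rw [e1, e2]
      exact h3
    · intro h3
      exact h3.2 _ _ h1 h2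
  · rw [dif_neg h, Sum.elim_inr, id_eq]
    symm
    unfold edgeValues
    rw [decide_eq_true_eq]
    refine ⟨ne_of_lt p.2, fun x y hx hy => ?_⟩
    exfalso
    apply h
    refine ⟨⟨(x, y), ?_⟩, hx, hy⟩
    have h3 : ι x < ι y := by
      rw [hx, hy]
      exact p.2
    exact ι.lt_iff_lt.1 h3

theorem univ_ext_mono (ι : Fin n' ↪o Fin n) {G G' : SimpleGraph (Fin n')} (h : G ≤ G') :
    univ_ext ι G ≤ univ_ext ι G' := by
  intro a b hab
  exact ⟨hab.1, fun x y hx hy => h (hab.2 x y hx hy)⟩

/-- The clique number. -/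
theorem hasClique_univ (ι : Fin n' ↪o Fin n) (G : SimpleGraph (Fin n')) {k j : ℕ}
    (hn : n - n' = k - j) (hjk : j ≤ k) (h : HasClique k (univ_ext ι G)) : HasClique j G := by
  obtain ⟨c, hc, hk⟩ := h
  refine ⟨univ.filter fun x => ι x ∈ c, ?_, ?_⟩
  · intro x hx y hy hxy
    rw [mem_coe, mem_filter] at hx hy
    exact (hc hx.2 hy.2 (fun h => hxy (ι.injective h))).2 x y rfl rfl
  · have h1 : c.card ≤ (univ.filter fun x => ι x ∈ c).card + (n - n') := by
      have h2 : c ⊆ (univ.filter fun x => ι x ∈ c).map ι.toEmbedding ∪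
          (univ \ univ.map ι.toEmbedding) := by
        intro a ha
        by_cases h : ∃ x, ι x = a
        · obtain ⟨x, rfl⟩ := h
          apply mem_union_left
          rw [mem_map]
          exact ⟨x, mem_filter.2 ⟨mem_univ _, ha⟩, rfl⟩
        · apply mem_union_right
          rw [mem_sdiff, mem_map]
          refine ⟨mem_univ _, ?_⟩
          rintro ⟨x, -, hx⟩
          exact h ⟨x, hx⟩
      have h3 := (card_le_card h2).trans (card_union_le _ _)
      rw [card_map, card_sdiff_of_subset (subset_univ _), card_map, card_univ, card_univ,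
        Fintype.card_fin, Fintype.card_fin] at h3
      exact h3
    omega

/-- The sets found by the restricted circuit. -/
theorem finds_univ (ι : Fin n' ↪o Fin n) (C : Circuit (Pair n)) (S : Finset (Fin n))
    (h : Finds C S) : Finds (C.subst (univ_sub ι)) (univ.filter fun x => ι x ∈ S) := by
  intro G hG
  rw [Circuit.eval_subst, pull_univ]
  apply h
  intro a ha b hb hab
  refine ⟨hab, fun x y hx hy => ?_⟩
  subst hx
  subst hy
  apply hG
  · rw [mem_coe, mem_filter]
    exact ⟨mem_univ _, ha⟩
  · rw [mem_coe, mem_filter]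
    exact ⟨mem_univ _, hb⟩
  · intro h
    exact hab (by rw [h])

theorem hasChain_univ (ι : Fin n' ↪o Fin n) (C : Circuit (Pair n)) {k j R : ℕ}
    (hn : n - n' = k - j) (hjk : j ≤ k) (h : HasChain (C.subst (univ_sub ι)) j R) :
    HasChain C k R := by
  obtain ⟨G, h1, h2, h3⟩ := h
  refine ⟨fun i => univ_ext ι (G i), fun i => univ_ext_mono ι (h1 i),
    fun i h => h2 i (hasClique_univ ι _ hn hjk h), fun i hi => ?_⟩
  have h4 := h3 i hi
  rw [Circuit.reads_subst, Circuit.reads_subst, pull_univ, pull_univ] at h4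
  exact h4

/-- From `j`-sets of `n - k + j` vertices to `k`-sets of `n` vertices. -/
theorem lift {n k j : ℕ} (hjk : j ≤ k) (hkn : k ≤ n) (C : Circuit (Pair n))
    (hs : ∀ G : SimpleGraph (Fin n), C.eval (edgeValues G) = true → HasClique k G)
    (R B : ℕ) (hno : ¬ HasChain C k R)
    (hB : ∀ C' : Circuit (Pair (n - k + j)), C'.size = C.size → C'.numReads = C.numReads →
      (∀ G : SimpleGraph (Fin (n - k + j)), C'.eval (edgeValues G) = true → HasClique j G) →
      ¬ HasChain C' j R →
      (univ.filter fun S : Finset (Fin (n - k + j)) => S.card = j ∧ Finds C' S).card ≤ B) :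
    (univ.filter fun S : Finset (Fin n) => S.card = k ∧ Finds C S).card *
      (n - k + j).choose j ≤ B * n.choose k := by
  obtain ⟨F, hF⟩ : ∃ F, F = univ.filter fun S : Finset (Fin n) => S.card = k ∧ Finds C S :=
    ⟨_, rfl⟩
  rw [← hF]
  have hcount : F.card * k.choose (k - j) ≤ n.choose (k - j) * B := by
    have h1 : F.card * k.choose (k - j) =
        ∑ S ∈ F, ((powersetCard (k - j) (univ : Finset (Fin n))).filter fun A => A ⊆ S).card := by
      rw [← smul_eq_mul, ← sum_const]
      apply sum_congr rfl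
      intro S hS
      rw [hF, mem_filter] at hS
      have h2 : ((powersetCard (k - j) (univ : Finset (Fin n))).filter fun A => A ⊆ S) =
          powersetCard (k - j) S := by
        ext A
        rw [mem_filter, mem_powersetCard, mem_powersetCard]
        constructor
        · rintro ⟨⟨-, h1⟩, h2⟩
          exact ⟨h2, h1⟩
        · rintro ⟨h1, h2⟩
          exact ⟨⟨subset_univ _, h2⟩, h1⟩
      rw [h2, card_powersetCard, hS.2.1]
    have h2 : ∑ S ∈ F, ((powersetCard (k - j) (univ : Finset (Fin n))).filter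
        fun A => A ⊆ S).card =
        ∑ A ∈ powersetCard (k - j) (univ : Finset (Fin n)), (F.filter fun S => A ⊆ S).card := by
      simp only [card_filter]
      rw [sum_comm]
    rw [h1, h2]
    have h3 : ∀ A ∈ powersetCard (k - j) (univ : Finset (Fin n)),
        (F.filter fun S => A ⊆ S).card ≤ B := by
      intro A hA
      rw [mem_powersetCard] at hA
      have hAc : Aᶜ.card = n - k + j := by
        rw [card_compl, Fintype.card_fin, hA.2]
        omega
      obtain ⟨ι, hι⟩ : ∃ ι, ι = Aᶜ.orderEmbOfFin hAc := ⟨_, rfl⟩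
      have hrange : ∀ a, (∃ x, ι x = a) ↔ a ∉ A := by
        intro a
        have h1 := Finset.range_orderEmbOfFin Aᶜ hAc
        rw [← hι] at h1
        have h2 : a ∈ Set.range ι ↔ a ∈ Aᶜ := by rw [h1]; exact Iff.rfl
        exact h2.trans mem_compl
      have hnn : n - (n - k + j) = k - j := by omega
      refine le_trans ?_ (hB (C.subst (univ_sub ι)) (Circuit.size_subst _ _)
        (Circuit.numReads_subst _ _) (fun G hG => ?_)
        (fun h => hno (hasChain_univ ι C hnn hjk h)))
      · apply card_le_card_of_injOn (fun S => univ.filter fun x => ι x ∈ S)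
        · intro S hS
          rw [mem_coe, mem_filter, hF, mem_filter] at hS
          rw [mem_coe, mem_filter]
          refine ⟨mem_univ _, ?_, finds_univ ι C S hS.1.2.2⟩
          have h4 : (univ.filter fun x => ι x ∈ S).card = (S \ A).card := by
            rw [← card_map ι.toEmbedding]
            congr 1
            ext a
            rw [mem_map, mem_sdiff]
            constructor
            · rintro ⟨x, hx, rfl⟩
              rw [mem_filter] at hx
              exact ⟨hx.2, (hrange _).1 ⟨x, rfl⟩⟩
            · rintro ⟨h5, h6⟩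
              obtain ⟨x, rfl⟩ := (hrange a).2 h6
              exact ⟨x, mem_filter.2 ⟨mem_univ _, h5⟩, rfl⟩
          rw [h4, card_sdiff_of_subset hS.2, hS.1.2.1, hA.2]
          omega
        · intro S hS S' hS' h
          rw [mem_coe, mem_filter] at hS hS'
          ext a
          by_cases ha : a ∈ A
          · exact ⟨fun _ => hS'.2 ha, fun _ => hS.2 ha⟩
          · obtain ⟨x, rfl⟩ := (hrange a).2 ha
            have h5 : x ∈ (univ.filter fun x => ι x ∈ S) ↔ x ∈ (univ.filter fun x => ι x ∈ S') := by
              simp only at h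
              rw [h]
            rw [mem_filter, mem_filter] at h5
            simpa using h5
      · rw [Circuit.eval_subst, pull_univ] at hG
        exact hasClique_univ ι G hnn hjk (hs _ hG)
    refine (sum_le_sum h3).trans ?_
    rw [sum_const, card_powersetCard, card_univ, Fintype.card_fin, smul_eq_mul]
  have hid : n.choose k * k.choose (k - j) = n.choose (k - j) * (n - k + j).choose j := by
    rw [Nat.choose_mul (Nat.sub_le k j)]
    congr 2 <;> omega
  have hpos : 0 < k.choose (k - j) := Nat.choose_pos (Nat.sub_le k j)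
  apply Nat.le_of_mul_le_mul_right _ hpos
  calc F.card * (n - k + j).choose j * k.choose (k - j)
      = (F.card * k.choose (k - j)) * (n - k + j).choose j := by ring
    _ ≤ n.choose (k - j) * B * (n - k + j).choose j := Nat.mul_le_mul_right _ hcount
    _ = B * (n.choose k * k.choose (k - j)) := by rw [hid]; ring
    _ = B * n.choose k * k.choose (k - j) := by ring

/-- The same with a real bound. -/
theorem lift_real {n k j : ℕ} (hjk : j ≤ k) (hkn : k ≤ n) (C : Circuit (Pair n))
    (hs : ∀ G : SimpleGraph (Fin n), C.eval (edgeValues G) = true → HasClique k G)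
    (R : ℕ) (B : ℝ) (hB0 : 0 ≤ B) (hno : ¬ HasChain C k R)
    (hB : ∀ C' : Circuit (Pair (n - k + j)), C'.size = C.size → C'.numReads = C.numReads →
      (∀ G : SimpleGraph (Fin (n - k + j)), C'.eval (edgeValues G) = true → HasClique j G) →
      ¬ HasChain C' j R →
      ((univ.filter fun S : Finset (Fin (n - k + j)) => S.card = j ∧ Finds C' S).card : ℝ) ≤ B) :
    ((univ.filter fun S : Finset (Fin n) => S.card = k ∧ Finds C S).card : ℝ) ≤
      B / ((n - k + j).choose j : ℝ) * (n.choose k : ℝ) := by
  have h := lift hjk hkn C hs R ⌊B⌋₊ hno (fun C' h1 h2 h3 h4 =>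
    (Nat.le_floor (hB C' h1 h2 h3 h4)))
  have hc : (0 : ℝ) < ((n - k + j).choose j : ℝ) := by
    exact_mod_cast Nat.choose_pos (by omega)
  rw [div_mul_eq_mul_div, le_div_iff₀ hc]
  calc ((univ.filter fun S : Finset (Fin n) => S.card = k ∧ Finds C S).card : ℝ) *
        ((n - k + j).choose j : ℝ) ≤ (⌊B⌋₊ : ℝ) * (n.choose k : ℝ) := by exact_mod_cast h
    _ ≤ B * (n.choose k : ℝ) :=
        mul_le_mul_of_nonneg_right (Nat.floor_le hB0) (Nat.cast_nonneg _)

end Pool.Agent.T9h35.WS
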