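import Pool.Agent.T9h35.WS.Reads

/-!
# One block, without the factor for two free parts

The proof is that of `Pool.Agent.T9h34.N.single_block`, with a better bound for the families in
which only two parts are free.
-/

set_option autoImplicit false

namespace Pool.Agent.T9h35.WS

open Finset Pool.Agent.T9h34 Pool.Agent.T9h16 Pool.Agent.T9h35.Sharp Pool.Agent.T9h35.NearBF
open Pool.Agent.T9h34.N
open scoped Classical

variable {I : Type}

/-- Families with at most two free parts. -/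
theorem few_free {Λ : Type} {m W j : ℕ} (hm : 2 ≤ m) (N : ℕ) (C : Circuit Λ)
    (hs : C.size + C.numReads + 1 ≤ N) (X : Set (EE (m + 1) W) → Λ → Bool)
    (leaf : ∀ a, Leaf (fun z => X z a = true))
    (sound : ∀ z, C.eval (X z) = true → TK z)
    (F : Finset (Fin (m + 1) → Fin W))
    (found : ∀ φ ∈ F, ∀ z, posG φ ⊆ z → C.eval (X z) = true)
    (e : Fin j ↪o Fin (m + 1)) (φ₀ : Fin (m + 1) → Fin W) (F' : Finset (Fin j → Fin W))
    (hfill : ∀ ψ ∈ F', fill e φ₀ ψ ∈ F) (hj : j ≤ 2) : F'.card ≤ 2 * N := by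
  -- two parts which contain the free ones
  obtain ⟨i, i', hii, hcov⟩ : ∃ i i' : Fin (m + 1), i < i' ∧ ∀ a : Fin j, e a = i ∨ e a = i' := by
    have hT : (univ.map e.toEmbedding : Finset (Fin (m + 1))).card ≤ 2 := by
      rw [card_map, card_univ, Fintype.card_fin]
      exact hj
    obtain ⟨T, hT1, -, hT2⟩ := exists_subsuperset_card_eq (subset_univ
      (univ.map e.toEmbedding : Finset (Fin (m + 1)))) hT (by
        rw [card_univ, Fintype.card_fin]
        omega)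
    obtain ⟨x, y, hxy, hTxy⟩ := card_eq_two.1 hT2
    have hmem : ∀ a : Fin j, e a = x ∨ e a = y := by
      intro a
      have h1 : e a ∈ T := hT1 (mem_map.2 ⟨a, mem_univ _, rfl⟩)
      rw [hTxy, mem_insert, mem_singleton] at h1
      exact h1
    rcases lt_or_gt_of_ne hxy with h | h
    · exact ⟨x, y, h, hmem⟩
    · exact ⟨y, x, h, fun a => (hmem a).symm⟩
  obtain ⟨F₂, hF₂⟩ : ∃ F₂ : Finset (Fin (m + 1) → Fin W), F₂ = F'.image (fill e φ₀) := ⟨_, rfl⟩
  have hfilli : Function.Injective (fill e φ₀) := by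
    intro ψ ψ' h
    funext a
    have := congrFun h (e a)
    rwa [fill_apply, fill_apply] at this
  have hcard : F₂.card = F'.card := by
    rw [hF₂, card_image_of_injective _ hfilli]
  rw [← hcard]
  have hsub : ∀ φ ∈ F₂, ∃ ψ ∈ F', fill e φ₀ ψ = φ := by
    intro φ hφ
    rw [hF₂, mem_image] at hφ
    exact hφ
  apply few_pairs N C hs X leaf sound F₂ _ i i' hii
  · intro φ hφ φ' hφ' h1 h2
    obtain ⟨ψ, -, rfl⟩ := hsub φ hφ
    obtain ⟨ψ', -, rfl⟩ := hsub φ' hφ'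
    congr 1
    funext a
    rcases hcov a with h | h
    · rw [← h, fill_apply, fill_apply] at h1
      exact h1
    · rw [← h, fill_apply, fill_apply] at h2
      exact h2
  · intro φ hφ
    obtain ⟨ψ, hψ, rfl⟩ := hsub φ hφ
    exact found _ (hfill ψ hψ)

/-- One block. If a sound circuit finds many of the transversals then the values read by its
further gates change often along a chain of inputs without transversal cliques. -/
theorem single_block' [Fintype I] {Λ : Type} {m W p : ℕ} (hm : 2 ≤ m) (r N R : ℕ)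
    (σ : Sys I (m + 1) p) (hI : 8 * R ≤ Fintype.card I)
    (C : Circuit Λ) (hs : C.size + C.numReads + 1 ≤ N)
    (X : Set (EE (m + 1) W) → Λ → Bool)
    (mono : ∀ z z', z ⊆ z' → ∀ a, X z a = true → X z' a = true)
    (leaf : ∀ a, Leaf (fun z => X z a = true))
    (sound : ∀ z, C.eval (X z) = true → TK z)
    (F : Finset (Fin (m + 1) → Fin W))
    (found : ∀ φ ∈ F, ∀ z, posG φ ⊆ z → C.eval (X z) = true)
    (h1 : m ^ m * ((3 * N + 1) * ((m + 1) * W + 1) ^ m) < 2 ^ r)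
    (h2 : 2 * N * ((4 * m ^ 2 * r) ^ 2 * (2 * (m + 1) * p)) ^ (m + 1) < F.card) :
    ∃ Y : ℕ → Set (EE (m + 1) W), (∀ i, Y i ⊆ Y (i + 1)) ∧ (∀ i, ¬ TK (Y i)) ∧
      ∀ i < R, C.reads (X (Y i)) ≠ C.reads (X (Y (i + 1))) := by
  rcases Nat.eq_zero_or_pos R with hR | hR
  · subst hR
    exact ⟨fun _ => ∅, fun _ => Set.Subset.rfl, fun _ => not_TK_empty (by omega),
      fun i hi => absurd hi (by omega)⟩
  have hIne : Nonempty I := by
    rw [← Fintype.card_pos_iff]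
    omega
  obtain ⟨β₀⟩ := hIne
  have hp : 1 ≤ p := by
    have := (σ.grp β₀ 0).2
    omega
  have hFne : F.Nonempty := by
    rw [← card_pos]
    omega
  obtain ⟨φ₁, hφ₁⟩ := hFne
  have hW : 1 ≤ W := by
    have := (φ₁ 0).2
    omega
  have hN : 1 ≤ N := by omega
  have hm1 : 1 ≤ m := by omega
  have hr : 1 ≤ r := by
    by_contra hcon
    have hr0 : r = 0 := by omega
    rw [hr0, pow_zero] at h1
    have h3 : 0 < m ^ m * ((3 * N + 1) * ((m + 1) * W + 1) ^ m) := by positivity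
    omega
  obtain ⟨ρ, hρ⟩ : ∃ ρ, ρ = 2 * (m + 1) * p := ⟨_, rfl⟩
  have hρp : p ≤ ρ := by
    rw [hρ]
    nlinarith
  have hρ1 : 1 ≤ ρ := hp.trans hρp
  rw [← hρ] at h2
  obtain ⟨c, hc⟩ : ∃ c, c = (4 * m ^ 2 * r) ^ 2 := ⟨_, rfl⟩
  have hc1 : 1 ≤ c := by
    rw [hc]
    exact Nat.pow_pos (Nat.mul_pos (Nat.mul_pos (by norm_num) (Nat.pow_pos hm1)) hr)
  rw [← hc] at h2
  obtain ⟨j, e, φ₀, F', hjκ, hfill, hcard, hspread⟩ := exists_core F ⟨φ₁, hφ₁⟩ ρ hρ1
  have hcF' : 2 * N * c ^ (m + 1) * ρ ^ j < F'.card := by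
    have h3 : 0 < ρ ^ (m + 1 - j) := Nat.pow_pos hρ1
    apply lt_of_mul_lt_mul_right _ (Nat.zero_le (ρ ^ (m + 1 - j)))
    calc 2 * N * c ^ (m + 1) * ρ ^ j * ρ ^ (m + 1 - j)
        = 2 * N * (c * ρ) ^ (m + 1) := by
          rw [mul_pow, mul_assoc (2 * N * c ^ (m + 1)), ← pow_add,
            show j + (m + 1 - j) = m + 1 by omega]
          ring
      _ < F.card := h2
      _ ≤ F'.card * ρ ^ (m + 1 - j) := hcard
  have hcpos : 1 ≤ c ^ (m + 1) := Nat.pow_pos hc1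
  have hj : 3 ≤ j := by
    by_contra hcon
    have h3 : F'.card ≤ 2 * N := few_free hm N C hs X leaf sound F found e φ₀ F' hfill (by omega)
    have h4 : 2 * N * 1 * 1 ≤ 2 * N * c ^ (m + 1) * ρ ^ j :=
      Nat.mul_le_mul (Nat.mul_le_mul_left _ hcpos) (Nat.pow_pos hρ1)
    omega
  obtain ⟨m', rfl⟩ : ∃ m', j = m' + 1 := ⟨j - 1, by omega⟩
  have hm' : 2 ≤ m' := by omega
  have hmm : m' ≤ m := by omega
  obtain ⟨γ, hγ⟩ := exists_rich (I := I) hp ρ (by
    rw [hρ]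
    apply Nat.mul_le_mul_right
    omega) F' hspread (fun β => (restr σ e).grp β)
  obtain ⟨B, hB⟩ : ∃ B, B = (univ.filter fun β : I =>
      F'.card ≤ 2 * p ^ (m' + 1) * cntB F' ((restr σ e).grp β) γ) := ⟨_, rfl⟩
  rw [← hB] at hγ
  have hBR : R ≤ B.card := by omega
  have hBrich : ∀ β ∈ B, N * (2 ^ (m' + 1) * (2 * m' * (m' * r)) ^ m') ^ 2 <
      cntB F' ((restr σ e).grp β) γ := by
    intro β hβ
    rw [hB, mem_filter] at hβ
    have h3 := lt_of_lt_of_le hcF' hβ.2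
    have h4 := const_le m m' r hmm (by omega) hr
    rw [← hc] at h4
    have h5 : 2 * p ^ (m' + 1) * (N * c ^ (m + 1)) ≤ 2 * N * c ^ (m + 1) * ρ ^ (m' + 1) := by
      calc 2 * p ^ (m' + 1) * (N * c ^ (m + 1)) = 2 * N * c ^ (m + 1) * p ^ (m' + 1) := by ring
        _ ≤ 2 * N * c ^ (m + 1) * ρ ^ (m' + 1) :=
            Nat.mul_le_mul_left _ (Nat.pow_le_pow_left hρp _)
    have h6 : 2 * p ^ (m' + 1) * (N * c ^ (m + 1)) <
        2 * p ^ (m' + 1) * cntB F' ((restr σ e).grp β) γ := lt_of_le_of_lt h5 h3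
    have h7 := lt_of_mul_lt_mul_left h6 (Nat.zero_le _)
    exact lt_of_le_of_lt (Nat.mul_le_mul_left _ h4) h7
  have hNS : NS (Vx (m' + 1) W) m' ≤ ((m + 1) * W + 1) ^ m := by
    refine (NS_le _ _).trans ?_
    rw [Fintype.card_prod, Fintype.card_fin, Fintype.card_fin]
    calc ((m' + 1) * W + 1) ^ m' ≤ ((m + 1) * W + 1) ^ m' :=
          Nat.pow_le_pow_left (Nat.succ_le_succ (Nat.mul_le_mul_right _ (by omega))) _
      _ ≤ ((m + 1) * W + 1) ^ m := Nat.pow_le_pow_right (Nat.succ_pos _) hmm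
  have hh1 : m' ^ m' * ((3 * N + 1) * NS (Vx (m' + 1) W) m') < 2 ^ r := by
    refine lt_of_le_of_lt ?_ h1
    apply Nat.mul_le_mul
    · calc m' ^ m' ≤ m ^ m' := Nat.pow_le_pow_left hmm _
        _ ≤ m ^ m := Nat.pow_le_pow_right hm1 hmm
    · exact Nat.mul_le_mul_left _ hNS
  obtain ⟨Y, hY1, hY2, hY3⟩ := chain_rich hm' r hr (restr σ e) γ F' C N hs
    (fun z => X (ext e φ₀ z)) (fun z z' hz a ha => mono _ _ (ext_mono e φ₀ hz) a ha) (by
      intro a
      rcases leaf a with ⟨E, hE⟩ | ⟨b, hb⟩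
      · rcases ext_leaf e φ₀ E with h | h | ⟨E', h⟩
        · refine Or.inr ⟨False, fun z => ?_⟩
          exact (hE _).trans ⟨fun h3 => h _ h3, fun h3 => h3.elim⟩
        · refine Or.inr ⟨True, fun z => ?_⟩
          exact (hE _).trans ⟨fun _ => trivial, fun _ => h _⟩
        · refine Or.inl ⟨E', fun z => ?_⟩
          exact (hE _).trans (h _)
      · exact Or.inr ⟨b, fun z => hb _⟩)
    (fun z hz => TK_ext e φ₀ (sound _ hz))
    (fun ψ hψ z hz => found _ (hfill ψ hψ) _ (ext_posG e φ₀ ψ hz)) hh1 B hBrich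
  refine ⟨fun i => ext e φ₀ (Y i), fun i => ext_mono e φ₀ (hY1 i), ?_, ?_⟩
  · intro i hi
    exact hY2 i (TK_ext e φ₀ hi)
  · intro i hi
    exact hY3 i (lt_of_lt_of_le hi hBR)

/-- `single_block'` without the monotonicity hypothesis. -/
theorem single' [Fintype I] {Λ : Type} {m W p : ℕ} (hm : 2 ≤ m) (r N R : ℕ)
    (σ : Sys I (m + 1) p) (hI : 8 * R ≤ Fintype.card I)
    (C : Circuit Λ) (hs : C.size + C.numReads + 1 ≤ N)
    (h1 : m ^ m * ((3 * N + 1) * ((m + 1) * W + 1) ^ m) < 2 ^ r)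
    (X : Set (EE (m + 1) W) → Λ → Bool)
    (leaf : ∀ a, Leaf (fun z => X z a = true))
    (sound : ∀ z, C.eval (X z) = true → TK z)
    (F : Finset (Fin (m + 1) → Fin W))
    (found : ∀ φ ∈ F, ∀ z, posG φ ⊆ z → C.eval (X z) = true)
    (h2 : 2 * N * ((4 * m ^ 2 * r) ^ 2 * (2 * (m + 1) * p)) ^ (m + 1) < F.card) :
    ∃ Y : ℕ → Set (EE (m + 1) W), (∀ i, Y i ⊆ Y (i + 1)) ∧ (∀ i, ¬ TK (Y i)) ∧
      ∀ i < R, C.reads (X (Y i)) ≠ C.reads (X (Y (i + 1))) :=
  single_block' hm r N R σ hI C hs X (fun z z' h a ha => mono_of_leaf X leaf z z' h a ha) leaf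
    sound F found h1 h2

end Pool.Agent.T9h35.WS
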