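import Pool.Agent.T9h35.WS.Params
import Pool.Agent.T9h35.WS.Single
import Pool.Agent.T9h36.WN.Main

set_option autoImplicit false

/-!
# Size, witness bits and NOT gates: one graph
-/

namespace Pool.Agent.T9h35.WS

open Finset Pool.Agent.T9h34 Pool.Agent.T9h16 Pool.Agent.T9h35.Sharp Pool.Agent.T9h35.NearBF
open Pool.Agent.T9h36.WN
open scoped Classical

theorem main_nat (t : ℕ) (ht : 1 ≤ t) : ∃ K, 1 ≤ K ∧ ∀ n k j N : ℕ, 1 ≤ N → 3 ≤ j → j ≤ k →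
    k ≤ n → (K * (Nat.log 2 N + 1)) ^ K ≤ (n - k + j) / j → ∀ C : Circuit (Pair n),
    C.size + C.numReads + 1 ≤ N →
    (∀ G : SimpleGraph (Fin n), C.eval (edgeValues G) = true → HasClique k G) →
    ∀ R : ℕ, 1 ≤ R → ¬ HasChain C k R →
    (univ.filter fun S : Finset (Fin n) => S.card = k ∧ Finds C S).card ^ (2 * (t + 1)) *
        ((n - k + j).choose j) ^ (2 * t) ≤
      N ^ (2 * (t + 1)) * R ^ (j * (t + 1)) * (n.choose k) ^ (2 * (t + 1)) := by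
  obtain ⟨K, hK1, hK⟩ := params t ht
  refine ⟨K, hK1, fun n k j N hN1 hj3 hjk hkn hew C hC hs R hR hno => ?_⟩
  obtain ⟨hW2, hCt, hpar⟩ := hK (n - k + j) j N hN1 hj3 hew
  obtain ⟨F, hF⟩ : ∃ F, F = (univ.filter fun S : Finset (Fin n) => S.card = k ∧
      Finds C S).card := ⟨_, rfl⟩
  rw [← hF]
  obtain ⟨c, hc⟩ : ∃ c, c = n.choose k := ⟨_, rfl⟩
  obtain ⟨c', hc'⟩ : ∃ c', c' = (n - k + j).choose j := ⟨_, rfl⟩
  obtain ⟨W, hW⟩ : ∃ W, W = (n - k + j) / j := ⟨_, rfl⟩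
  rw [← hc']
  rw [← hc'] at hCt hpar
  rw [← hc]
  rw [← hW] at hCt hW2 hpar
  by_cases hRW : R ≤ W ^ 2
  · obtain ⟨M, m, w, u, r, D, d, hM, hm, hr, hk, hn, hw, hD, hd, hrounds, hblocks,
      hfin⟩ := hpar R hR hRW
    obtain ⟨I, _, ⟨σ⟩, hI⟩ := exists_sys D d (m + 1) hD hd (by omega)
    have hI8 : 8 * R ≤ Fintype.card I := by
      have h1 : 8 * R * (D * d ^ 2) ≤ Fintype.card I * (D * d ^ 2) := hblocks.trans hI
      exact Nat.le_of_mul_le_mul_right h1 (Nat.mul_pos (by omega) (Nat.pow_pos (by omega)))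
    obtain ⟨Q, hQ⟩ : ∃ Q, Q = 2 * N * ((4 * m ^ 2 * r) ^ 2 * (2 * (m + 1) *
        (2 * ((m + 1) * ((m + 1) * d) ^ D)))) ^ (m + 1) := ⟨_, rfl⟩
    have hS : Single C m w R Q := by
      rw [hQ]
      intro X leaf sound F found h2
      exact single' hm r N R σ hI8 C hC hrounds X leaf sound F found h2
    rw [← hQ] at hfin
    have h1 := few_found n k M m w (u + (k - j)) R Q hM hm (by omega) (by omega) C hs hS hno
    rw [← hF, ← hc] at h1
    obtain ⟨P, hP⟩ : ∃ P, P = (w ^ (m + 1)) ^ M := ⟨_, rfl⟩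
    rw [← hP] at h1 hfin
    have hP0 : 0 < P := by
      rw [hP]
      positivity
    have h2 : F ^ (2 * (t + 1)) * c' ^ (2 * t) * P ^ (2 * (t + 1)) ≤
        N ^ (2 * (t + 1)) * R ^ (j * (t + 1)) * c ^ (2 * (t + 1)) * P ^ (2 * (t + 1)) := by
      calc F ^ (2 * (t + 1)) * c' ^ (2 * t) * P ^ (2 * (t + 1))
          = (F * P) ^ (2 * (t + 1)) * c' ^ (2 * t) := by
            rw [mul_pow]
            ring
        _ ≤ (Q ^ M * c) ^ (2 * (t + 1)) * c' ^ (2 * t) :=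
            Nat.mul_le_mul_right _ (Nat.pow_le_pow_left h1 _)
        _ = (Q ^ M) ^ (2 * (t + 1)) * c' ^ (2 * t) * c ^ (2 * (t + 1)) := by
            rw [mul_pow]
            ring
        _ ≤ N ^ (2 * (t + 1)) * R ^ (j * (t + 1)) * P ^ (2 * (t + 1)) * c ^ (2 * (t + 1)) :=
            Nat.mul_le_mul_right _ hfin
        _ = N ^ (2 * (t + 1)) * R ^ (j * (t + 1)) * c ^ (2 * (t + 1)) * P ^ (2 * (t + 1)) := by
            ring
    exact Nat.le_of_mul_le_mul_right h2 (Nat.pow_pos hP0)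
  · rw [not_le] at hRW
    have hFN : F ≤ c := by
      rw [hF, hc]
      calc (univ.filter fun S : Finset (Fin n) => S.card = k ∧ Finds C S).card
          ≤ (powersetCard k (univ : Finset (Fin n))).card := by
            apply card_le_card
            intro S hS
            rw [mem_filter] at hS
            rw [mem_powersetCard]
            exact ⟨subset_univ _, hS.2.1⟩
        _ = n.choose k := by rw [card_powersetCard, card_univ, Fintype.card_fin]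
    calc F ^ (2 * (t + 1)) * c' ^ (2 * t) = (c' ^ t) ^ 2 * F ^ (2 * (t + 1)) := by
          rw [← pow_mul c' t 2, mul_comm (F ^ (2 * (t + 1))), mul_comm 2 t]
      _ ≤ (W ^ (j * (t + 1))) ^ 2 * c ^ (2 * (t + 1)) :=
          Nat.mul_le_mul (Nat.pow_le_pow_left hCt 2) (Nat.pow_le_pow_left hFN _)
      _ = 1 * (W ^ 2) ^ (j * (t + 1)) * c ^ (2 * (t + 1)) := by
          rw [← pow_mul W, ← pow_mul W, mul_comm (j * (t + 1)) 2, one_mul]
      _ ≤ N ^ (2 * (t + 1)) * R ^ (j * (t + 1)) * c ^ (2 * (t + 1)) := by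
          apply Nat.mul_le_mul_right
          exact Nat.mul_le_mul (Nat.one_le_pow _ _ hN1) (Nat.pow_le_pow_left hRW.le _)

theorem real_step' {F N R c c' t j : ℕ} {ε : ℝ} (hε : 0 < ε) (ht : 1 / ε < t) (hc' : 1 ≤ c')
    (h : F ^ (2 * (t + 1)) * c' ^ (2 * t) ≤
      N ^ (2 * (t + 1)) * R ^ (j * (t + 1)) * c ^ (2 * (t + 1))) :
    (F : ℝ) ≤ N * (R : ℝ) ^ ((j : ℝ) / 2) / (c' : ℝ) ^ (1 - ε) * c := by
  have hc1 : (1 : ℝ) ≤ c' := by exact_mod_cast hc'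
  have hc0 : (0 : ℝ) < (c' : ℝ) ^ (1 - ε) := Real.rpow_pos_of_pos (by linarith) _
  rw [div_mul_eq_mul_div, le_div_iff₀ hc0]
  have h1 : (F : ℝ) ^ (2 * (t + 1)) * (c' : ℝ) ^ (2 * t) ≤
      (N : ℝ) ^ (2 * (t + 1)) * (R : ℝ) ^ (j * (t + 1)) * (c : ℝ) ^ (2 * (t + 1)) := by
    exact_mod_cast h
  have h2 : ((F : ℝ) * (c' : ℝ) ^ (1 - ε)) ^ (2 * (t + 1)) ≤
      (F : ℝ) ^ (2 * (t + 1)) * (c' : ℝ) ^ (2 * t) := by
    rw [mul_pow]
    apply mul_le_mul_of_nonneg_left _ (by positivity)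
    rw [← Real.rpow_natCast ((c' : ℝ) ^ (1 - ε)), ← Real.rpow_mul (Nat.cast_nonneg _),
      ← Real.rpow_natCast (c' : ℝ) (2 * t)]
    apply Real.rpow_le_rpow_of_exponent_le hc1
    rw [div_lt_iff₀ hε] at ht
    push_cast
    nlinarith
  have h3 : (N * (R : ℝ) ^ ((j : ℝ) / 2) * c) ^ (2 * (t + 1)) =
      (N : ℝ) ^ (2 * (t + 1)) * (R : ℝ) ^ (j * (t + 1)) * (c : ℝ) ^ (2 * (t + 1)) := by
    rw [mul_pow, mul_pow, ← Real.rpow_natCast ((R : ℝ) ^ ((j : ℝ) / 2)),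
      ← Real.rpow_mul (Nat.cast_nonneg _)]
    have e1 : (j : ℝ) / 2 * ((2 * (t + 1) : ℕ) : ℝ) = ((j * (t + 1) : ℕ) : ℝ) := by
      push_cast
      ring
    rw [e1, Real.rpow_natCast]
  refine le_of_pow_le_pow_left₀ (n := 2 * (t + 1)) (by omega) (by positivity) ?_
  rw [h3]
  exact h2.trans h1

/-- One circuit, one graph. -/
theorem one_graph (ε : ℝ) (hε : 0 < ε) : ∃ K : ℕ, 0 < K ∧
    ∀ (n k j : ℕ) (C : Circuit (Pair n)), 3 ≤ j → j ≤ k → k ≤ n →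
    (K * (Nat.log 2 (C.size + C.numReads + 1) + 1)) ^ K ≤ (n - k + j) / j →
    (∀ G : SimpleGraph (Fin n), C.eval (edgeValues G) = true → HasClique k G) →
    ∀ R : ℕ, 1 ≤ R → ¬ HasChain C k R →
      ((univ.filter fun S : Finset (Fin n) => S.card = k ∧ Finds C S).card : ℝ) ≤
        ((C.size + C.numReads + 1 : ℕ) : ℝ) * (R : ℝ) ^ ((j : ℝ) / 2) /
          ((n - k + j).choose j : ℝ) ^ (1 - ε) * (n.choose k : ℝ) := by
  obtain ⟨t, ht⟩ := exists_nat_gt (1 / ε)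
  have ht0 : (0 : ℝ) < t := lt_trans (by positivity) ht
  have ht1 : 1 ≤ t := by exact_mod_cast ht0
  obtain ⟨K, hK1, hK⟩ := main_nat t ht1
  refine ⟨K, by omega, fun n k j C hj3 hjk hkn hew hs R hR hno => ?_⟩
  have h2 := hK n k j _ (by omega) hj3 hjk hkn hew C le_rfl hs R hR hno
  exact real_step' hε ht (Nat.choose_pos (by omega)) h2

end Pool.Agent.T9h35.WS
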