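import Pool.Agent.T9h36.WN.Params

set_option autoImplicit false

/-!
# The parameters for circuits of all sizes
-/

namespace Pool.Agent.T9h35.WS

open Finset Pool.Agent.T9h35.Sharp Pool.Agent.T9h35.NearBF Pool.Agent.T9h36.WN

/-- The number of rounds. -/
theorem rounds' (m L l N W : ℕ) (hN : N < 2 ^ L) (hW : W < 2 ^ (l + 1)) (hW1 : 1 ≤ W) :
    m ^ m * ((3 * N + 1) * ((m + 1) * W + 1) ^ m) <
      2 ^ (m * m + (L + 2) + m * ((m + 1) + (l + 1))) := by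
  have h1 : m ^ m ≤ 2 ^ (m * m) := by
    rw [pow_mul]
    exact Nat.pow_le_pow_left Nat.lt_two_pow_self.le _
  have h2 : 3 * N + 1 < 2 ^ (L + 2) := by
    rw [pow_add]
    omega
  have h3 : (m + 1) * W + 1 ≤ 2 ^ ((m + 1) + (l + 1)) := by
    rw [pow_add]
    have h4 : m + 1 + 1 ≤ 2 ^ (m + 1) := Nat.lt_two_pow_self
    calc (m + 1) * W + 1 ≤ (m + 1 + 1) * W := by nlinarith
      _ ≤ 2 ^ (m + 1) * 2 ^ (l + 1) := Nat.mul_le_mul h4 hW.le
  calc m ^ m * ((3 * N + 1) * ((m + 1) * W + 1) ^ m)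
      ≤ 2 ^ (m * m) * ((3 * N + 1) * (2 ^ ((m + 1) + (l + 1))) ^ m) := by gcongr
    _ < 2 ^ (m * m) * (2 ^ (L + 2) * (2 ^ ((m + 1) + (l + 1))) ^ m) := by gcongr
    _ = 2 ^ (m * m + (L + 2) + m * ((m + 1) + (l + 1))) := by
        rw [← pow_mul, pow_add, pow_add, mul_comm ((m + 1) + (l + 1)) m]
        ring

theorem exp_ineq2 (t M x k : ℕ) (ht : 1 ≤ t) (hxk : x ≤ k)
    (hu : 4 * t * (k - x) ≤ k) (hM : M ≤ k) :
    M * (t + 1) + 4 * x * (t + 1) + k * (t + 1) +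
      k * (8 * t + 1) * (16 * t) ≤ 2 * (64 * t) * x * (t + 1) := by
  obtain ⟨u, rfl⟩ : ∃ u, k = x + u := ⟨k - x, by omega⟩
  rw [Nat.add_sub_cancel_left] at hu
  have h1 : 128 * t * (t + 1) * u ≤ 64 * t * (x + u) := by
    have h2 : 128 * t * (t + 1) * u ≤ 128 * t * (2 * t) * u := by gcongr; omega
    have h3 : 64 * t * (4 * t * u) ≤ 64 * t * (x + u) := Nat.mul_le_mul_left _ hu
    nlinarith
  have h2 : 4 * x * (t + 1) ≤ 4 * (x + u) * (t + 1) := by gcongr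
  have h3 : M * (t + 1) ≤ (x + u) * (t + 1) := Nat.mul_le_mul_right _ hM
  have h4 : (x + u) * 1 ≤ (x + u) * t := Nat.mul_le_mul_left _ ht
  have h5 : 2 * (64 * t) * x * (t + 1) + 128 * t * (t + 1) * u =
      128 * t * (t + 1) * (x + u) := by ring
  nlinarith

/-- The choice of the parameters. -/
theorem params (t : ℕ) (ht : 1 ≤ t) : ∃ K, 1 ≤ K ∧ ∀ n k N : ℕ, 1 ≤ N → 3 ≤ k →
    (K * (Nat.log 2 N + 1)) ^ K ≤ n / k →
    2 ≤ n / k ∧ (n.choose k) ^ t ≤ (n / k) ^ (k * (t + 1)) ∧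
    ∀ R : ℕ, 1 ≤ R → R ≤ (n / k) ^ 2 →
    ∃ M m w u r D d : ℕ, 1 ≤ M ∧ 2 ≤ m ∧ 1 ≤ r ∧ k = u + M * (m + 1) ∧
      M * (m + 1) * w + u ≤ n ∧ 1 ≤ w ∧ 1 ≤ D ∧ 1 ≤ d ∧
      m ^ m * ((3 * N + 1) * ((m + 1) * w + 1) ^ m) < 2 ^ r ∧
      8 * R * (D * d ^ 2) ≤ (m + 1) * ((m + 1) * d) ^ D * d ^ D ∧
      ((2 * N * ((4 * m ^ 2 * r) ^ 2 * (2 * (m + 1) *
        (2 * ((m + 1) * ((m + 1) * d) ^ D)))) ^ (m + 1)) ^ M) ^ (2 * (t + 1)) *
        (n.choose k) ^ (2 * t) ≤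
        N ^ (2 * (t + 1)) * R ^ (k * (t + 1)) * ((w ^ (m + 1)) ^ M) ^ (2 * (t + 1)) := by
  obtain ⟨q, hq⟩ : ∃ q, q = 64 * t := ⟨_, rfl⟩
  obtain ⟨A, hA⟩ : ∃ A, A = 8 * t := ⟨_, rfl⟩
  obtain ⟨c, hc⟩ : ∃ c, c = (3200 * A ^ 9 * (2 * A) ^ (q + 2) * (32 * (q + 1))) ^ 2 := ⟨_, rfl⟩
  obtain ⟨K1, hK1⟩ := exists_large_c c q
  obtain ⟨K, hK⟩ : ∃ K, K = (2 * q + 26) * q + 32 * (q + 1) + K1 := ⟨_, rfl⟩
  refine ⟨K, by omega, ?_⟩
  intro n k N hN1 hk3 hew
  obtain ⟨W, hW⟩ : ∃ W, W = n / k := ⟨_, rfl⟩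
  obtain ⟨L, hL⟩ : ∃ L, L = Nat.log 2 N + 1 := ⟨_, rfl⟩
  rw [← hL] at hew
  rw [← hW] at hew ⊢
  obtain ⟨l, hl⟩ : ∃ l, l = Nat.log 2 W := ⟨_, rfl⟩
  have hL1 : 1 ≤ L := by omega
  have hNL : N < 2 ^ L := by
    rw [hL]
    exact Nat.lt_pow_succ_log_self (by norm_num) _
  have hq64 : 64 ≤ q := by omega
  have hA8 : 8 ≤ A := by omega
  have hqK : 32 * (q + 1) ≤ K := by omega
  have hKpos : 2 ≤ K := by omega
  have hKe : K ≤ K * L := Nat.le_mul_of_pos_right _ hL1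
  have hKW : 2 ^ K ≤ W :=
    (Nat.pow_le_pow_left (hKpos.trans hKe) K).trans hew
  have hKW' : K < W := Nat.lt_two_pow_self.trans_le hKW
  have hW2' : 2 ≤ W := by omega
  have hW1 : 1 ≤ W := by omega
  have hlK : K ≤ l := by
    rw [hl]
    exact Nat.le_log_of_pow_le (by norm_num) hKW
  have hl1 : 1 ≤ l := by omega
  have hW2 : 2 ^ l ≤ W := by
    rw [hl]
    exact Nat.pow_log_le_self _ (by omega)
  have hWl : W < 2 ^ (l + 1) := by
    rw [hl]
    exact Nat.lt_pow_succ_log_self (by norm_num) _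
  have hk1 : 1 ≤ k := by omega
  have h6 : 6 ^ (8 * t) ≤ W := by
    calc 6 ^ (8 * t) ≤ 8 ^ (8 * t) := Nat.pow_le_pow_left (by norm_num) _
      _ = 2 ^ (24 * t) := by
          rw [show (8 : ℕ) = 2 ^ 3 by norm_num, ← pow_mul]
          ring_nf
      _ ≤ 2 ^ l := Nat.pow_le_pow_right (by norm_num) (by omega)
      _ ≤ W := hW2
  have hCT := choose_bound hW hk1 hW1 h6
  refine ⟨hW2', ?_, ?_⟩
  · apply (Nat.pow_le_pow_iff_left (show 8 ≠ 0 by norm_num)).1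
    calc ((n.choose k) ^ t) ^ 8 = (n.choose k) ^ (8 * t) := by rw [← pow_mul, mul_comm]
      _ ≤ W ^ (k * (8 * t + 1)) := hCT
      _ ≤ W ^ (k * (8 * (t + 1))) :=
          Nat.pow_le_pow_right hW1 (Nat.mul_le_mul_left _ (by omega))
      _ = (W ^ (k * (t + 1))) ^ 8 := by
          rw [← pow_mul]
          congr 1
          ring
  intro R hR1 hRW
  -- the number of blocks
  obtain ⟨M', hM'⟩ : ∃ M', M' = k / (A * L) := ⟨_, rfl⟩
  obtain ⟨M, hM⟩ : ∃ M, M = M' + 1 := ⟨_, rfl⟩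
  obtain ⟨κ, hκ⟩ : ∃ κ, κ = k / M := ⟨_, rfl⟩
  obtain ⟨u, hu⟩ : ∃ u, u = k % M := ⟨_, rfl⟩
  have huM : u < M := by
    rw [hu]
    exact Nat.mod_lt _ (by omega)
  have hkM : k = u + M * κ := by
    rw [hκ, hu, add_comm]
    exact (Nat.div_add_mod k M).symm
  have hM'L : A * L * M' ≤ k := by
    rw [hM']
    exact Nat.mul_div_le _ _
  have hMk : M ≤ k := by
    have h1 : 8 * M' ≤ k := by
      calc 8 * M' = 8 * 1 * M' := by ring
        _ ≤ A * L * M' := by gcongr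
        _ ≤ k := hM'L
    omega
  have hu4 : 4 * t * (k - M * κ) ≤ k := by
    have hku : k - M * κ = u := by omega
    rw [hku]
    rcases Nat.eq_zero_or_pos M' with h0 | h0
    · have hu0 : u = 0 := by omega
      rw [hu0, mul_zero]
      exact Nat.zero_le _
    · calc 4 * t * u ≤ 4 * t * M' := Nat.mul_le_mul_left _ (by omega)
        _ ≤ A * L * M' := by
            apply Nat.mul_le_mul_right
            calc 4 * t ≤ A * 1 := by omega
              _ ≤ A * L := Nat.mul_le_mul_left _ hL1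
        _ ≤ k := hM'L
  have hκ3 : 3 ≤ κ := by
    rw [hκ]
    apply (Nat.le_div_iff_mul_le (by omega)).2
    rcases Nat.eq_zero_or_pos M' with h0 | h0
    · rw [hM, h0]
      omega
    · have h1 : 8 * M' ≤ k := by
        calc 8 * M' = 8 * 1 * M' := by ring
          _ ≤ A * L * M' := by gcongr
          _ ≤ k := hM'L
      omega
  have hκA : κ ≤ A * L := by
    rw [hκ]
    apply Nat.le_of_lt_succ
    apply (Nat.div_lt_iff_lt_mul (by omega)).2
    have h1 : k < (M' + 1) * (A * L) := by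
      rw [hM']
      have h2 : 0 < A * L := Nat.mul_pos (by omega) hL1
      exact Nat.lt_mul_of_div_lt (Nat.lt_succ_self _) h2
    rw [hM]
    nlinarith
  obtain ⟨m, hm⟩ : ∃ m, m + 1 = κ := ⟨κ - 1, by omega⟩
  have hm2 : 2 ≤ m := by omega
  obtain ⟨r, hr⟩ : ∃ r, r = m * m + (L + 2) + m * ((m + 1) + (l + 1)) := ⟨_, rfl⟩
  have hr1 : 1 ≤ r := by omega
  obtain ⟨d, s, hd1, hs1, hs2, hs3, hs4, hs5⟩ := sys_digit q R (by omega) hR1
  refine ⟨M, m, W, u, r, q + 1, d, by omega, hm2, hr1, by rw [hm]; exact hkM, ?_, hW1,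
    by omega, hd1, ?_, ?_, ?_⟩
  · rw [hm]
    calc M * κ * W + u ≤ M * κ * W + u * W :=
          Nat.add_le_add_left (Nat.le_mul_of_pos_right _ hW1) _
      _ = k * W := by rw [hkM]; ring
      _ ≤ n := by rw [hW]; exact Nat.mul_div_le _ _
  · rw [hr]
    exact rounds' m L l N W hNL hWl hW1
  · rw [hm]
    exact blocks_bound (by omega) hs1 hs3
  rw [hm]
  obtain ⟨p, hp⟩ : ∃ p, p = 2 * (κ * (κ * d) ^ (q + 1)) := ⟨_, rfl⟩
  have hpb : p ^ q ≤ ((2 * κ) ^ (q + 2) * s) ^ q * s := by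
    rw [hp]
    exact groups_bound hs4
  obtain ⟨B, hB⟩ : ∃ B, B = (4 * m ^ 2 * r) ^ 2 * (2 * κ) := ⟨_, rfl⟩
  obtain ⟨Q, hQ⟩ : ∃ Q, Q = 2 * N * (B * p) ^ κ := ⟨_, rfl⟩
  have hQ' : 2 * N * ((4 * m ^ 2 * r) ^ 2 * (2 * κ *
      (2 * (κ * (κ * d) ^ (q + 1))))) ^ κ = Q := by
    rw [hQ, hB, hp]
    congr 2
    ring
  rw [hQ']
  -- the lower order factor
  obtain ⟨E, hE⟩ : ∃ E, E = (B * (2 * κ) ^ (q + 2) * (32 * (q + 1))) ^ 2 := ⟨_, rfl⟩
  have hBle : B ≤ 3200 * κ ^ 9 * l ^ 2 * L ^ 2 := by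
    have h1 : r ≤ 10 * (κ ^ 2 * (l * L)) := by
      have hκ1 : 1 ≤ κ := by omega
      have e1 : m * m ≤ κ ^ 2 * (l * L) := by
        calc m * m ≤ κ * κ := Nat.mul_le_mul (by omega) (by omega)
          _ = κ ^ 2 * (1 * 1) := by ring
          _ ≤ κ ^ 2 * (l * L) := by gcongr
      have e2 : L ≤ κ ^ 2 * (l * L) := by
        calc L = 1 ^ 2 * (1 * L) := by ring
          _ ≤ κ ^ 2 * (l * L) := by gcongr
      have e3 : 1 ≤ κ ^ 2 * (l * L) := hL1.trans e2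
      have e4 : m * (m + 1) ≤ κ ^ 2 * (l * L) := by
        calc m * (m + 1) ≤ κ * κ := Nat.mul_le_mul (by omega) (by omega)
          _ = κ ^ 2 * (1 * 1) := by ring
          _ ≤ κ ^ 2 * (l * L) := by gcongr
      have e5 : m * (l + 1) ≤ 2 * (κ ^ 2 * (l * L)) := by
        calc m * (l + 1) ≤ κ * (2 * l) := Nat.mul_le_mul (by omega) (by omega)
          _ = 2 * (κ * 1 * (l * 1)) := by ring
          _ ≤ 2 * (κ * κ * (l * L)) := by gcongr
          _ = 2 * (κ ^ 2 * (l * L)) := by ring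
      calc r = m * m + L + 2 * 1 + m * (m + 1) + m * (l + 1) := by rw [hr]; ring
        _ ≤ 10 * (κ ^ 2 * (l * L)) := by omega
    have h2 : m ≤ κ := by omega
    calc B = (4 * m ^ 2 * r) ^ 2 * (2 * κ) := hB
      _ ≤ (4 * κ ^ 2 * (10 * (κ ^ 2 * (l * L)))) ^ 2 * (2 * κ) := by gcongr
      _ = 3200 * κ ^ 9 * l ^ 2 * L ^ 2 := by ring
  have hEq : E ^ q ≤ W ^ 2 := by
    have h1 : E ≤ c * l ^ 4 * L ^ (2 * q + 26) := by
      calc E ≤ (3200 * κ ^ 9 * l ^ 2 * L ^ 2 * (2 * κ) ^ (q + 2) * (32 * (q + 1))) ^ 2 := by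
            rw [hE]
            gcongr
        _ ≤ (3200 * (A * L) ^ 9 * l ^ 2 * L ^ 2 * (2 * (A * L)) ^ (q + 2) *
              (32 * (q + 1))) ^ 2 := by gcongr
        _ = c * l ^ 4 * L ^ (2 * q + 26) := by
            rw [hc, show 2 * (A * L) = 2 * A * L by ring, mul_pow (2 * A) L (q + 2),
              mul_pow A L 9]
            ring
    calc E ^ q ≤ (c * l ^ 4 * L ^ (2 * q + 26)) ^ q := Nat.pow_le_pow_left h1 _
      _ = (c * l ^ 4) ^ q * L ^ ((2 * q + 26) * q) := by rw [mul_pow, ← pow_mul]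
      _ ≤ W * W := by
          apply Nat.mul_le_mul ((hK1 l (by omega)).trans hW2)
          calc L ^ ((2 * q + 26) * q) ≤ L ^ K := Nat.pow_le_pow_right hL1 (by omega)
            _ ≤ (K * L) ^ K :=
                Nat.pow_le_pow_left (Nat.le_mul_of_pos_left _ (by omega)) _
            _ ≤ W := hew
      _ = W ^ 2 := by ring
  -- one block
  have hQq : Q ^ (2 * q) ≤ N ^ (2 * q) * W * (W ^ 4 * R ^ q) ^ κ := by
    have h1 : (p ^ q) ^ 2 ≤ ((2 * κ) ^ (q + 2)) ^ (2 * q) * ((32 * (q + 1)) ^ (q + 1) *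
        R ^ (q + 1)) := by
      calc (p ^ q) ^ 2 ≤ (((2 * κ) ^ (q + 2) * s) ^ q * s) ^ 2 := Nat.pow_le_pow_left hpb 2
        _ = ((2 * κ) ^ (q + 2)) ^ (2 * q) * (s ^ 2) ^ (q + 1) := by
            obtain ⟨Z, hZ⟩ : ∃ Z, Z = (2 * κ) ^ (q + 2) := ⟨_, rfl⟩
            rw [← hZ]
            ring
        _ ≤ ((2 * κ) ^ (q + 2)) ^ (2 * q) * (32 * R * (q + 1)) ^ (q + 1) := by gcongr
        _ = ((2 * κ) ^ (q + 2)) ^ (2 * q) * ((32 * (q + 1)) ^ (q + 1) * R ^ (q + 1)) := by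
            rw [← mul_pow (32 * (q + 1)) R (q + 1)]
            congr 2
            ring
    have h2 : (32 * (q + 1)) ^ (q + 1) ≤ (32 * (q + 1)) ^ (2 * q) :=
      Nat.pow_le_pow_right (by omega) (by omega)
    have h3 : B ^ (2 * q) * (p ^ q) ^ 2 ≤ W ^ 4 * R ^ q := by
      calc B ^ (2 * q) * (p ^ q) ^ 2
          ≤ B ^ (2 * q) * (((2 * κ) ^ (q + 2)) ^ (2 * q) * ((32 * (q + 1)) ^ (2 * q) *
            R ^ (q + 1))) := by
            apply Nat.mul_le_mul_left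
            exact h1.trans (Nat.mul_le_mul_left _ (Nat.mul_le_mul_right _ h2))
        _ = E ^ q * R ^ (q + 1) := by
            have h4 : E ^ q = B ^ (2 * q) * ((2 * κ) ^ (q + 2)) ^ (2 * q) *
                (32 * (q + 1)) ^ (2 * q) := by
              rw [hE, ← pow_mul, mul_pow, mul_pow]
            rw [h4]
            ring
        _ ≤ W ^ 2 * (R ^ q * W ^ 2) := by
            rw [pow_succ R q]
            gcongr
        _ = W ^ 4 * R ^ q := by ring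
    have h4 : 2 ^ (2 * q) ≤ W := by
      refine le_trans ?_ hKW
      exact Nat.pow_le_pow_right (by norm_num) (by omega)
    calc Q ^ (2 * q) = 2 ^ (2 * q) * N ^ (2 * q) *
          (B ^ (2 * q) * (p ^ q) ^ 2) ^ κ := by
          have e1 : (B ^ (2 * q) * (p ^ q) ^ 2) ^ κ = ((B * p) ^ κ) ^ (2 * q) := by
            rw [← pow_mul p q 2, mul_comm q 2, ← mul_pow, ← pow_mul, ← pow_mul, mul_comm κ]
          rw [e1, hQ, mul_pow, mul_pow]
      _ ≤ W * N ^ (2 * q) * (W ^ 4 * R ^ q) ^ κ := by gcongr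
      _ = N ^ (2 * q) * W * (W ^ 4 * R ^ q) ^ κ := by ring
  have hNM : N ^ M ≤ N * 2 ^ k := by
    rw [hM, pow_succ, mul_comm]
    apply Nat.mul_le_mul_left
    calc N ^ M' ≤ (2 ^ L) ^ M' := Nat.pow_le_pow_left hNL.le _
      _ = 2 ^ (L * M') := by rw [pow_mul]
      _ ≤ 2 ^ k := by
          apply Nat.pow_le_pow_right (by norm_num)
          refine le_trans ?_ hM'L
          calc L * M' = 1 * L * M' := by ring
            _ ≤ A * L * M' := by gcongr; omega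
  have h2q : 2 ^ (2 * q) ≤ W := by
    refine le_trans ?_ hKW
    exact Nat.pow_le_pow_right (by norm_num) (by omega)
  -- the power `q`
  apply (Nat.pow_le_pow_iff_left (show q ≠ 0 by omega)).1
  have hexp := exp_ineq2 t M (M * κ) k ht (by omega) hu4 hMk
  calc ((Q ^ M) ^ (2 * (t + 1)) * (n.choose k) ^ (2 * t)) ^ q
      = (Q ^ (2 * q)) ^ (M * (t + 1)) * ((n.choose k) ^ (8 * t)) ^ (16 * t) := by
        rw [mul_pow, ← pow_mul, ← pow_mul, ← pow_mul, ← pow_mul, ← pow_mul]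
        congr 2
        · ring
        · rw [hq]
          ring
    _ ≤ (N ^ (2 * q) * W * (W ^ 4 * R ^ q) ^ κ) ^ (M * (t + 1)) *
          (W ^ (k * (8 * t + 1))) ^ (16 * t) := by gcongr
    _ = (N ^ M) ^ (2 * q * (t + 1)) * W ^ (M * (t + 1) +
          4 * (M * κ) * (t + 1) + k * (8 * t + 1) * (16 * t)) *
          R ^ (q * (M * κ * (t + 1))) := by
        have f1 : (N ^ (2 * q)) ^ (M * (t + 1)) = (N ^ M) ^ (2 * q * (t + 1)) := by
          rw [← pow_mul, ← pow_mul]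
          congr 1
          ring
        have f3 : ((W ^ 4 * R ^ q) ^ κ) ^ (M * (t + 1)) =
            W ^ (4 * (M * κ) * (t + 1)) * R ^ (q * (M * κ * (t + 1))) := by
          rw [← pow_mul, mul_pow, ← pow_mul, ← pow_mul]
          congr 2 <;> ring
        have f4 : (W ^ (k * (8 * t + 1))) ^ (16 * t) = W ^ (k * (8 * t + 1) * (16 * t)) := by
          rw [← pow_mul]
        rw [mul_pow, mul_pow, f1, f3, f4, pow_add, pow_add]
        ring
    _ ≤ (N * 2 ^ k) ^ (2 * q * (t + 1)) * W ^ (M * (t + 1) +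
          4 * (M * κ) * (t + 1) + k * (8 * t + 1) * (16 * t)) *
          R ^ (q * (k * (t + 1))) := by
        apply Nat.mul_le_mul
        · apply Nat.mul_le_mul_right
          exact Nat.pow_le_pow_left hNM _
        · apply Nat.pow_le_pow_right hR1
          apply Nat.mul_le_mul_left
          apply Nat.mul_le_mul_right
          omega
    _ = N ^ (2 * q * (t + 1)) * (2 ^ (2 * q)) ^ (k * (t + 1)) *
          W ^ (M * (t + 1) +
          4 * (M * κ) * (t + 1) + k * (8 * t + 1) * (16 * t)) *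
          R ^ (q * (k * (t + 1))) := by
        rw [mul_pow N, ← pow_mul 2, ← pow_mul 2]
        congr 4
        ring
    _ ≤ N ^ (2 * q * (t + 1)) * W ^ (k * (t + 1)) *
          W ^ (M * (t + 1) +
          4 * (M * κ) * (t + 1) + k * (8 * t + 1) * (16 * t)) *
          R ^ (q * (k * (t + 1))) := by gcongr
    _ = N ^ (2 * q * (t + 1)) *
          W ^ (M * (t + 1) +
          4 * (M * κ) * (t + 1) + k * (t + 1) + k * (8 * t + 1) * (16 * t)) *
          R ^ (q * (k * (t + 1))) := by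
        rw [mul_assoc (N ^ (2 * q * (t + 1))), ← pow_add]
        congr 3
        ring
    _ ≤ N ^ (2 * q * (t + 1)) * W ^ (2 * q * (M * κ) * (t + 1)) *
          R ^ (q * (k * (t + 1))) := by
        apply Nat.mul_le_mul_right
        apply Nat.mul_le_mul_left
        apply Nat.pow_le_pow_right hW1
        rw [hq]
        exact hexp
    _ = (N ^ (2 * (t + 1)) * R ^ (k * (t + 1)) * ((W ^ κ) ^ M) ^ (2 * (t + 1))) ^ q := by
        rw [mul_pow, mul_pow]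
        simp only [← pow_mul]
        have e1 : 2 * (t + 1) * q = 2 * q * (t + 1) := by ring
        have e2 : k * (t + 1) * q = q * (k * (t + 1)) := by ring
        have e3 : κ * M * (2 * (t + 1)) * q = 2 * q * (M * κ) * (t + 1) := by ring
        rw [e1, e2, e3]
        ring

end Pool.Agent.T9h35.WS
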