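import Pool.Agent.T9h35.WS.Main
import Pool.Agent.T9h35.WS.Lift

set_option autoImplicit false

/-!
# Several graphs and several circuits
-/

namespace Pool.Agent.T9h35.WS

open Finset Pool.Agent.T9h34 Pool.Agent.T9h16 Pool.Agent.T9h35.Sharp Pool.Agent.T9h35.NearBF
open Pool.Agent.T9h36.WN
open scoped Classical

/-- The values of the edge variables of several graphs. -/
noncomputable def allValues {M n : ℕ} (G : Fin M → SimpleGraph (Fin n)) :
    Fin M × Pair n → Bool :=
  fun p => edgeValues (G p.1) p.2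

/-- The circuit finds the tuple `S` of sets: it accepts all tuples of graphs in which the sets
are cliques. -/
def FindsAll {M n : ℕ} (C : Circuit (Fin M × Pair n)) (S : Fin M → Finset (Fin n)) : Prop :=
  ∀ G : Fin M → SimpleGraph (Fin n), (∀ a, (G a).IsClique (S a : Set (Fin n))) →
    C.eval (allValues G) = true

/-- There is a chain of tuples of graphs, not all of which have a clique of size `k`, such that
the values read by the further gates change in the first `R` steps. -/
def HasChains {M n : ℕ} (C : Circuit (Fin M × Pair n)) (k R : ℕ) : Prop :=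
  ∃ G : ℕ → Fin M → SimpleGraph (Fin n), (∀ i, G i ≤ G (i + 1)) ∧
    (∀ i, ∃ a, ¬ HasClique k (G i a)) ∧
    ∀ i < R, C.reads (allValues (G i)) ≠ C.reads (allValues (G (i + 1)))

/-- All graphs but one are complete. -/
noncomputable def proj {M n : ℕ} (a : Fin M) (p : Fin M × Pair n) : Pair n ⊕ Bool :=
  if p.1 = a then Sum.inl p.2 else Sum.inr true

/-- All graphs but one are complete. -/
noncomputable def put {M n : ℕ} (a : Fin M) (G : SimpleGraph (Fin n)) :
    Fin M → SimpleGraph (Fin n) :=
  Function.update (fun _ => ⊤) a G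

theorem pull_proj {M n : ℕ} (a : Fin M) (G : SimpleGraph (Fin n)) :
    pull (proj a) (edgeValues G) = allValues (put a G) := by
  funext p
  obtain ⟨b, e⟩ := p
  unfold pull proj allValues put
  by_cases h : b = a
  · subst h
    simp
  · simp only [if_neg h, Sum.elim_inr, id_eq]
    rw [Function.update_of_ne h]
    symm
    simp only [edgeValues, SimpleGraph.top_adj, decide_eq_true_eq]
    exact (ne_of_lt e.2)

theorem put_mono {M n : ℕ} (a : Fin M) {G G' : SimpleGraph (Fin n)} (h : G ≤ G') :
    put a G ≤ put a G' := by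
  intro b
  unfold put
  by_cases hb : b = a
  · subst hb
    rw [Function.update_self, Function.update_self]
    exact h
  · rw [Function.update_of_ne hb, Function.update_of_ne hb]

theorem chains_of_chain {M n k R : ℕ} (C : Circuit (Fin M × Pair n)) (a : Fin M)
    (h : HasChain (C.subst (proj a)) k R) : HasChains C k R := by
  obtain ⟨G, h1, h2, h3⟩ := h
  refine ⟨fun i => put a (G i), fun i => put_mono a (h1 i), fun i => ⟨a, ?_⟩, fun i hi => ?_⟩
  · change ¬ HasClique k (put a (G i) a)
    unfold put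
    rw [Function.update_self]
    exact h2 i
  · have h4 := h3 i hi
    rw [Circuit.reads_subst, Circuit.reads_subst, pull_proj, pull_proj] at h4
    exact h4

/-- The largest number of changes. -/
theorem exists_max_all {M n : ℕ} (C : Circuit (Fin M × Pair n)) {k : ℕ} (hk : 2 ≤ k)
    (hM : 1 ≤ M) :
    ∃ m, HasChains C k m ∧ ¬ HasChains C k (m + 1) ∧
      m + 1 ≤ (C.gates.map fun g => g.args.length + 1).prod := by
  have hbound : ∀ R, HasChains C k R → R + 1 ≤ (C.gates.map fun g => g.args.length + 1).prod := by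
    rintro R ⟨G, h1, -, h3⟩
    apply changes_le C (fun i => allValues (G i)) _ _ h3
    intro i e he
    simp only [allValues, edgeValues, decide_eq_true_eq] at he ⊢
    exact h1 i e.1 he
  have h0 : HasChains C k 0 :=
    ⟨fun _ _ => ⊥, fun _ => le_rfl, fun _ => ⟨⟨0, hM⟩, not_hasClique_bot hk⟩,
      fun i hi => absurd hi (by omega)⟩
  have hex : ∃ R, ¬ HasChains C k R := by
    by_contra hcon
    push Not at hcon
    have := hbound _ (hcon ((C.gates.map fun g => g.args.length + 1).prod))
    omega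
  obtain ⟨R, hR1, hR2⟩ : ∃ R, ¬ HasChains C k R ∧ ∀ R' < R, HasChains C k R' :=
    ⟨Nat.find hex, Nat.find_spec hex, fun R' h => not_not.1 (Nat.find_min hex h)⟩
  have hR0 : R ≠ 0 := by
    rintro rfl
    exact hR1 h0
  obtain ⟨m, rfl⟩ : ∃ m, R = m + 1 := ⟨R - 1, by omega⟩
  exact ⟨m, hR2 m (by omega), hR1, hbound _ (hR2 m (by omega))⟩

/-- From one graph and one circuit to several graphs and circuits, for an arbitrary bound. -/
theorem product_of {U : Type} [Fintype U] {M n k : ℕ} (hM : 1 ≤ M) (hk2 : 2 ≤ k)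
    (D : U → Circuit (Fin M × Pair n)) (β : U → ℕ → ℝ)
    (hβ : ∀ u R (C : Circuit (Pair n)), C.size = (D u).size → C.numReads = (D u).numReads →
      (∀ G : SimpleGraph (Fin n), C.eval (edgeValues G) = true → HasClique k G) →
      1 ≤ R → ¬ HasChain C k R →
      ((univ.filter fun S : Finset (Fin n) => S.card = k ∧ Finds C S).card : ℝ) ≤ β u R)
    (hcl : ∀ u (G : Fin M → SimpleGraph (Fin n)), (D u).eval (allValues G) = true →
      ∀ a, HasClique k (G a)) :
    ∃ (m : U → ℕ) (G : U → ℕ → Fin M → SimpleGraph (Fin n)),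
      (∀ u i, G u i ≤ G u (i + 1)) ∧ (∀ u i, ∃ a, ¬ HasClique k (G u i a)) ∧
      (∀ u, ∀ i < m u, (D u).reads (allValues (G u i)) ≠
        (D u).reads (allValues (G u (i + 1)))) ∧
      (∀ u, m u + 1 ≤ ((D u).gates.map fun g => g.args.length + 1).prod) ∧
      ({S : Fin M → Finset (Fin n) | (∀ a, (S a).card = k) ∧ ∃ u, FindsAll (D u) S}.ncard : ℝ) ≤
        ∑ u, β u (m u + 1) ^ M := by
  have hmax := fun u => exists_max_all (D u) hk2 hM
  choose m hm1 hm2 hm3 using hmax
  choose G hG1 hG2 hG3 using hm1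
  refine ⟨m, G, hG1, hG2, hG3, hm3, ?_⟩
  obtain ⟨F, hF⟩ : ∃ F : U → Fin M → Finset (Finset (Fin n)), ∀ u a, F u a =
      univ.filter fun S : Finset (Fin n) => S.card = k ∧ Finds ((D u).subst (proj a)) S :=
    ⟨_, fun _ _ => rfl⟩
  have h1 : ∀ u a, ((F u a).card : ℝ) ≤ β u (m u + 1) := by
    intro u a
    rw [hF]
    apply hβ u (m u + 1) _ (Circuit.size_subst _ _) (Circuit.numReads_subst _ _) _ (by omega)
      (fun h3 => hm2 u (chains_of_chain _ a h3))
    intro G' hG'
    rw [Circuit.eval_subst, pull_proj] at hG'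
    have h3 := hcl u _ hG' a
    unfold put at h3
    rw [Function.update_self] at h3
    exact h3
  have h2 : {S : Fin M → Finset (Fin n) | (∀ a, (S a).card = k) ∧ ∃ u, FindsAll (D u) S} ⊆
      (((univ : Finset U).biUnion fun u => Fintype.piFinset (F u) :
        Finset (Fin M → Finset (Fin n))) : Set (Fin M → Finset (Fin n))) := by
    rintro S ⟨hS, u, hu⟩
    rw [mem_coe, mem_biUnion]
    refine ⟨u, mem_univ _, ?_⟩
    rw [Fintype.mem_piFinset]
    intro a
    rw [hF, mem_filter]
    refine ⟨mem_univ _, hS a, fun G' hG' => ?_⟩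
    rw [Circuit.eval_subst, pull_proj]
    apply hu
    intro b
    unfold put
    by_cases hb : b = a
    · subst hb
      rw [Function.update_self]
      exact hG'
    · rw [Function.update_of_ne hb]
      intro x _ y _ hxy
      exact hxy
  have h3 := Set.ncard_le_ncard h2 (Finset.finite_toSet _)
  rw [Set.ncard_coe_finset] at h3
  calc (({S : Fin M → Finset (Fin n) | (∀ a, (S a).card = k) ∧
        ∃ u, FindsAll (D u) S}.ncard : ℕ) : ℝ)
      ≤ ((∑ u : U, (Fintype.piFinset (F u)).card : ℕ) : ℝ) := by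
        exact_mod_cast h3.trans card_biUnion_le
    _ = ∑ u : U, ∏ a : Fin M, ((F u a).card : ℝ) := by
        push_cast
        apply sum_congr rfl
        intro u _
        rw [Fintype.card_piFinset]
        push_cast
        rfl
    _ ≤ ∑ u : U, ∏ _a : Fin M, β u (m u + 1) :=
        sum_le_sum fun u _ => prod_le_prod (fun a _ => Nat.cast_nonneg _) fun a _ => h1 u a
    _ = ∑ u, β u (m u + 1) ^ M := by
        apply sum_congr rfl
        intro u _
        rw [prod_const, card_univ, Fintype.card_fin]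

/-- The theorem. -/
theorem main (ε : ℝ) (hε : 0 < ε) : ∃ K : ℕ, 0 < K ∧
    ∀ (U : Type) [Fintype U] (M n k j : ℕ) (D : U → Circuit (Fin M × Pair n)),
    1 ≤ M → 3 ≤ j → j ≤ k → k ≤ n →
    (∀ u, (K * (Nat.log 2 ((D u).size + (D u).numReads + 1) + 1)) ^ K ≤ (n - k + j) / j) →
    (∀ u (G : Fin M → SimpleGraph (Fin n)), (D u).eval (allValues G) = true →
      ∀ a, HasClique k (G a)) →
    ∃ (m : U → ℕ) (G : U → ℕ → Fin M → SimpleGraph (Fin n)),
      (∀ u i, G u i ≤ G u (i + 1)) ∧ (∀ u i, ∃ a, ¬ HasClique k (G u i a)) ∧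
      (∀ u, ∀ i < m u, (D u).reads (allValues (G u i)) ≠
        (D u).reads (allValues (G u (i + 1)))) ∧
      (∀ u, m u + 1 ≤ ((D u).gates.map fun g => g.args.length + 1).prod) ∧
      ({S : Fin M → Finset (Fin n) | (∀ a, (S a).card = k) ∧ ∃ u, FindsAll (D u) S}.ncard : ℝ) ≤
        (∑ u, (((D u).size + (D u).numReads + 1 : ℕ) *
          ((m u + 1 : ℕ) : ℝ) ^ ((j : ℝ) / 2) /
            ((n - k + j).choose j : ℝ) ^ (1 - ε)) ^ M) * (n.choose k : ℝ) ^ M := by
  obtain ⟨K, hK0, hK⟩ := one_graph ε hε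
  refine ⟨K, by omega, fun U _ M n k j D hM hj3 hjk hkn hew hcl => ?_⟩
  obtain ⟨m, G, h1, h2, h3, h4, h5⟩ := product_of hM (by omega) D
    (fun u R => ((D u).size + (D u).numReads + 1 : ℕ) * (R : ℝ) ^ ((j : ℝ) / 2) /
      ((n - k + j).choose j : ℝ) ^ (1 - ε) * (n.choose k : ℝ)) (by
      intro u R C e1 e2 hs hR hno
      have hsz : (D u).size + (D u).numReads + 1 = C.size + C.numReads + 1 := by rw [e1, e2]
      have hea := hew u
      simp only [hsz] at hea ⊢
      exact hK n k j C hj3 hjk hkn hea hs R hR hno) hcl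
  refine ⟨m, G, h1, h2, h3, h4, h5.trans (le_of_eq ?_)⟩
  rw [sum_mul]
  apply sum_congr rfl
  intro u _
  rw [mul_pow]

end Pool.Agent.T9h35.WS
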