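import Pool.Agent.T9h34.N.Single

set_option autoImplicit false

/-!
# A sound circuit reads a variable for each transversal with two free parts
-/

namespace Pool.Agent.T9h35.WS

open Finset Pool.Agent.T9h34 Pool.Agent.T9h16 Pool.Agent.T9h35.Sharp Pool.Agent.T9h35.NearBF
open scoped Classical

variable {Λ : Type}

/-- What a gate reads. -/
def gsrcs : Gate Λ → List (Src Λ)
  | .and a b => [a, b]
  | .or a b => [a, b]
  | .other args _ => args

/-- What a circuit reads. -/
def srcs (C : Circuit Λ) : List (Src Λ) := C.out :: C.gates.flatMap gsrcs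

theorem gsrcs_length (g : Gate Λ) : (gsrcs g).length ≤ 2 + g.args.length := by
  cases g <;> simp [gsrcs, Gate.args]

theorem srcs_length (C : Circuit Λ) : (srcs C).length ≤ 2 * C.size + C.numReads + 1 := by
  have h : ∀ gs : List (Gate Λ), (gs.flatMap gsrcs).length ≤
      2 * gs.length + (gs.map fun g => g.args.length).sum := by
    intro gs
    induction gs with
    | nil => simp
    | cons g gs ih =>
      rw [List.flatMap_cons, List.length_append, List.length_cons, List.map_cons, List.sum_cons]
      have := gsrcs_length g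
      omega
  have h1 := h C.gates
  unfold srcs Circuit.size Circuit.numReads
  rw [List.length_cons]
  omega

theorem src_congr {x y : Λ → Bool} {vs : List Bool} (s : Src Λ)
    (h : ∀ a, s = .input a → x a = y a) : s.eval x vs = s.eval y vs := by
  cases s with
  | input a => exact h a rfl
  | const b => rfl
  | gate j => rfl

theorem gate_congr {x y : Λ → Bool} {vs : List Bool} (g : Gate Λ)
    (h : ∀ a, Src.input a ∈ gsrcs g → x a = y a) : g.eval x vs = g.eval y vs := by
  cases g with
  | and a b =>
    simp only [Gate.eval]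
    rw [src_congr (y := y) a (fun i hi => h i (by simp [gsrcs, hi])),
      src_congr (y := y) b (fun i hi => h i (by simp [gsrcs, hi]))]
  | or a b =>
    simp only [Gate.eval]
    rw [src_congr (y := y) a (fun i hi => h i (by simp [gsrcs, hi])),
      src_congr (y := y) b (fun i hi => h i (by simp [gsrcs, hi]))]
  | other args φ =>
    simp only [Gate.eval]
    congr 1
    apply List.map_congr_left
    intro a ha
    apply src_congr
    intro i hi
    apply h
    rw [← hi]
    exact ha

theorem run_congr {x y : Λ → Bool} (gs : List (Gate Λ))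
    (h : ∀ a, Src.input a ∈ gs.flatMap gsrcs → x a = y a) : runGates x gs = runGates y gs := by
  induction gs using List.reverseRecOn with
  | nil => rfl
  | append_singleton gs g ih =>
    rw [runGates_append, runGates_append, ih, gate_congr (y := y) g]
    · intro a ha
      apply h
      rw [List.flatMap_append, List.mem_append]
      right
      simpa using ha
    · intro a ha
      apply h
      rw [List.flatMap_append, List.mem_append]
      exact Or.inl ha

theorem eval_congr {x y : Λ → Bool} (C : Circuit Λ)
    (h : ∀ a, Src.input a ∈ srcs C → x a = y a) : C.eval x = C.eval y := by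
  unfold Circuit.eval
  rw [run_congr (y := y) C.gates (fun a ha => h a (List.mem_cons_of_mem _ ha))]
  apply src_congr
  intro a ha
  apply h
  rw [← ha]
  exact List.mem_cons_self

/-- A sound circuit finds at most `2 N` transversals which are determined by two of their
vertices. -/
theorem few_pairs {κ W : ℕ} (N : ℕ) (C : Circuit Λ) (hs : C.size + C.numReads + 1 ≤ N)
    (X : Set (EE κ W) → Λ → Bool) (leaf : ∀ a, Leaf (fun z => X z a = true))
    (sound : ∀ z, C.eval (X z) = true → TK z) (F : Finset (Fin κ → Fin W))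
    (found : ∀ φ ∈ F, ∀ z, posG φ ⊆ z → C.eval (X z) = true) (i i' : Fin κ) (hii : i < i')
    (hinj : ∀ φ ∈ F, ∀ φ' ∈ F, φ i = φ' i → φ i' = φ' i' → φ = φ') : F.card ≤ 2 * N := by
  -- the edge
  obtain ⟨ed, hed⟩ : ∃ ed : (Fin κ → Fin W) → EE κ W,
      ∀ φ, ed φ = ⟨((i, φ i), (i', φ i')), hii⟩ := ⟨_, fun _ => rfl⟩
  have hnoTK : ∀ φ, ¬ TK (posG φ \ {ed φ}) := by
    rintro φ ⟨φ', hφ'⟩
    have h1 : (⟨((i, φ' i), (i', φ' i')), hii⟩ : EE κ W) ∈ posG φ \ {ed φ} := hφ' ⟨rfl, rfl⟩
    obtain ⟨⟨h2, h3⟩, h4⟩ := h1
    simp only at h2 h3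
    apply h4
    rw [Set.mem_singleton_iff, hed, h2, h3]
  have hread : ∀ φ ∈ F, ∃ a, Src.input a ∈ srcs C ∧ ∀ z, X z a = true ↔ ed φ ∈ z := by
    intro φ hφ
    by_contra hcon
    push Not at hcon
    have h1 : C.eval (X (posG φ)) = C.eval (X (posG φ \ {ed φ})) := by
      apply eval_congr
      intro a ha
      rcases leaf a with ⟨e, he⟩ | ⟨b, hb⟩
      · by_cases hee : e = ed φ
        · exfalso
          obtain ⟨z, hz⟩ := hcon a ha
          subst hee
          rcases hz with ⟨hz1, hz2⟩ | ⟨hz1, hz2⟩
          · exact hz2 ((he z).1 hz1)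
          · exact hz1 ((he z).2 hz2)
        · rw [Bool.eq_iff_iff]
          refine (he _).trans (Iff.trans ?_ (he _).symm)
          constructor
          · intro h
            exact ⟨h, fun h' => hee h'⟩
          · intro h
            exact h.1
      · rw [Bool.eq_iff_iff]
        exact (hb _).trans (hb _).symm
    rw [found φ hφ _ Set.Subset.rfl] at h1
    exact hnoTK φ (sound _ h1.symm)
  rcases F.eq_empty_or_nonempty with h0 | ⟨φ₁, hφ₁⟩
  · rw [h0, card_empty]
    exact Nat.zero_le _
  obtain ⟨a₁, -⟩ := hread φ₁ hφ₁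
  have : Nonempty Λ := ⟨a₁⟩
  choose! f hf1 hf2 using hread
  have hinj' : Set.InjOn (fun φ => Src.input (f φ)) (F : Set (Fin κ → Fin W)) := by
    intro φ hφ φ' hφ' h
    have h' : f φ = f φ' := by
      simpa using h
    have h1 := hf2 φ hφ {ed φ}
    have h2 := hf2 φ' hφ' {ed φ}
    rw [h'] at h1
    have h3 : ed φ' ∈ ({ed φ} : Set (EE κ W)) := h2.1 (h1.2 rfl)
    rw [Set.mem_singleton_iff, hed, hed] at h3
    have h4 := congrArg (fun E : EE κ W => E.1.1.2) h3
    have h5 := congrArg (fun E : EE κ W => E.1.2.2) h3
    simp only at h4 h5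
    exact hinj φ hφ φ' hφ' h4.symm h5.symm
  have h1 : F.card ≤ (srcs C).toFinset.card := by
    apply card_le_card_of_injOn _ _ hinj'
    intro φ hφ
    rw [mem_coe, List.mem_toFinset]
    exact hf1 φ hφ
  have h2 := List.toFinset_card_le (srcs C)
  have h3 := srcs_length C
  omega

end Pool.Agent.T9h35.WS
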